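import Pool.Agent.K1H97.ST.Tw
import Pool.Agent.Y676.MainB

/-!
# Almost all tuples of curves
-/

set_option autoImplicit false

namespace Pool.Agent.K1H97.ST

open Finset
open Pool.Agent.Y676
open Pool.Agent.K1H97.CU
open Pool.Agent.K1H97.FU (pT_U)
open Pool.Agent.W307.RT (Cv HasT Sh LOW)
open Pool.Agent.TH841.SH.D (Sha)

variable {k : ℕ}

/-- the good primes: `M` is a multiple of `8`, and the classes of the other primes are trivial
modulo `M` -/
def GP (x : Fin k → ℤ × ℤ) (q : ℕ) : Prop :=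
  q.Prime ∧ q % 8 = 1 ∧ ∃ M : ℕ, 0 < M ∧ 8 ∣ M ∧ Nat.Coprime q M ∧
    ∀ (n : ℕ) (r : Fin n → ℕ), Function.Injective r →
      (∀ j, (r j).Prime ∧ r j ≡ 1 [MOD M] ∧ r j ≠ q) →
        ∀ i, St (x i) ((q * ∏ j, r j : ℕ) : ℤ) (n - (Lap q r).rank)

open Classical in
/-- the good primes -/
noncomputable def UQ (Q : ℕ) (x : Fin k → ℤ × ℤ) : Finset ℕ := (Icc 1 Q).filter (GP x)

lemma good_gt {Y : ℕ} {A B : ℤ} {s : ℕ → Bool} {q : ℕ} (h0 : GoodQ Y A B s q) : Y < q := by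
  have hm := h0.m8
  by_contra hcon
  push Not at hcon
  have h1 := h0.sm q h0.pr (by omega) hcon
  have : NeZero q := ⟨h0.pr.ne_zero⟩
  have h5 : jacobiSym (q : ℤ) q = 0 := by
    rw [jacobiSym.eq_zero_iff_not_coprime]
    simp [h0.pr.ne_one]
  rw [h5] at h1
  norm_num at h1

/-- **one tuple** -/
theorem one_tuple (hk : 0 < k) {Y : ℕ} (hY : 2 ≤ Y) {x : Fin k → ℤ × ℤ}
    {r : Fin k → ℤ × ℤ × ℤ} (hr : ∀ i, PR3 (x i) (r i))
    (h1 : ∀ i, Ty1 Y ((r i).2.1 - (r i).1) ((r i).2.2 - (r i).1))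
    {q : ℕ} (hqp : q.Prime) (hq : ∀ i, ∃ s : ℕ → Bool,
      (∀ e, InS Y ((r i).2.1 - (r i).1) ((r i).2.2 - (r i).1) s e → e = (1, 1)) ∧
        GoodQ Y ((r i).2.1 - (r i).1) ((r i).2.2 - (r i).1) s q) : GP x q := by
  classical
  choose s hs hq using hq
  have hqY : Y < q := good_gt (hq ⟨0, hk⟩)
  refine ⟨hqp, (hq ⟨0, hk⟩).m8, 8 * Y.factorial * ∏ i, (((r i).2.1 - (r i).1) *
    ((r i).2.2 - (r i).1) * (((r i).2.1 - (r i).1) - ((r i).2.2 - (r i).1))).natAbs, ?_, ?_, ?_,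
    fun n p hp hpp i => ?_⟩
  · have := Nat.factorial_pos Y
    refine Nat.mul_pos (by positivity) (prod_pos fun i _ => Int.natAbs_pos.2 fun h => ?_)
    exact (hq i).nd (by rw [h]; exact dvd_zero _)
  · exact (Dvd.intro _ rfl : 8 ∣ 8 * Y.factorial).mul_right _
  · rw [Nat.Prime.coprime_iff_not_dvd hqp]
    intro h
    rcases (Nat.Prime.dvd_mul hqp).1 h with h | h
    · rcases (Nat.Prime.dvd_mul hqp).1 h with h | h
      · have h8 := (hq ⟨0, hk⟩).m8
        have : q ≤ 8 := Nat.le_of_dvd (by norm_num) h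
        have h2 := hqp.one_lt
        omega
      · have := (Nat.Prime.dvd_factorial hqp).1 h
        omega
    · obtain ⟨i, -, hi⟩ := (Prime.dvd_finsetProd_iff hqp.prime _).1 h
      exact (hq i).nd (Int.natCast_dvd.2 hi)
  · have hMM : MM Y ((r i).2.1 - (r i).1) ((r i).2.2 - (r i).1) ∣
        8 * Y.factorial * ∏ i, (((r i).2.1 - (r i).1) *
    ((r i).2.2 - (r i).1) * (((r i).2.1 - (r i).1) - ((r i).2.2 - (r i).1))).natAbs := by
      unfold MM
      exact Nat.mul_dvd_mul_left _ (dvd_prod_of_mem (fun i => (((r i).2.1 - (r i).1) *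
        ((r i).2.2 - (r i).1) * (((r i).2.1 - (r i).1) - ((r i).2.2 - (r i).1))).natAbs)
        (mem_univ i))
    have hGS : GS Y ((r i).2.1 - (r i).1) ((r i).2.2 - (r i).1) q (univ.image p) := by
      refine ⟨?_, ?_, ?_⟩
      · intro l hl
        obtain ⟨j, -, rfl⟩ := mem_image.1 hl
        exact (hpp j).1
      · intro l hl
        obtain ⟨j, -, rfl⟩ := mem_image.1 hl
        exact (hpp j).2.1.of_dvd hMM
      · intro h
        obtain ⟨j, -, h⟩ := mem_image.1 h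
        exact (hpp j).2.2 h
    have key := tw_st (hr i).rt hY (h1 i) (hs i) (hq i) hp hGS
    have hd : pT (insert q (univ.image p)) = ((q * ∏ j, p j : ℕ) : ℤ) := by
      rw [pT_U hGS.nq]
      unfold pT
      rw [prod_image fun x _ y _ h => hp h]
      push_cast
      rfl
    rw [hd] at key
    exact key

open Classical in
/-- **almost all tuples of curves** -/
theorem main (hkey : S_KEY) (hmom : S_MOM) (k : ℕ) (hk : 0 < k) (ε : ℝ) (hε : 0 < ε) :
    ∃ c : ℝ, 0 < c ∧ ∃ H0 : ℕ, ∀ H : ℕ, H0 ≤ H → ∀ Q : ℕ, (Real.log H) ^ (CE k) ≤ Q →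
    (((CT k H).filter (fun x => ¬ c * Q / Real.log Q ≤ ((UQ Q x).card : ℝ))).card : ℝ) ≤
      ε * ((Cv 2 H).card : ℝ) ^ k := by
  obtain ⟨K, hK, hT⟩ := transfer k
  obtain ⟨δ, hδ⟩ : ∃ δ : ℝ, δ = ε / (2 * (K + 1)) := ⟨_, rfl⟩
  have hδ0 : 0 < δ := by rw [hδ]; positivity
  have hδk : 0 < δ / ((k + 1) * 9 ^ k) := by positivity
  obtain ⟨Y1, hY12, hY1⟩ := box_all k δ hδ0
  obtain ⟨Y2, hY22, hY2⟩ := pos_count hkey hmom (δ / ((k + 1) * 9 ^ k)) hδk
  obtain ⟨Y, hY⟩ : ∃ Y : ℕ, Y = max (max Y1 Y2) 11 := ⟨_, rfl⟩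
  have hY11 : 11 ≤ Y := by rw [hY]; exact le_max_right _ _
  have hYge : 2 ≤ Y := by omega
  obtain ⟨X1, hX1⟩ := hY1 Y (by rw [hY]; exact (le_max_left _ _).trans (le_max_left _ _))
  obtain ⟨c, hc, X2, hX2⟩ := hY2 Y (by
    rw [hY]; exact (le_max_right _ _).trans (le_max_left _ _))
  have hW0 : 0 < WY Y := by unfold WY; have := Nat.factorial_pos Y; positivity
  obtain ⟨c', Q0, hc', hpnt⟩ := Pool.Agent.Y157.SH.pnt (WY Y) hW0
  refine ⟨c ^ k / 2 * c', by positivity, ?_⟩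
  have tL : Filter.Tendsto (fun X : ℕ => Real.log (X : ℝ)) Filter.atTop Filter.atTop :=
    Real.tendsto_log_atTop.comp tendsto_natCast_atTop_atTop
  obtain ⟨H1, hH1⟩ := Filter.eventually_atTop.1 ((tL.eventually_ge_atTop 1).and
    (tL.eventually_ge_atTop (Q0 + 2)))
  obtain ⟨H2, hH2⟩ := hT (X1 + X2 + 2)
  refine ⟨H1 + H2, fun H hH Q hQ => ?_⟩
  obtain ⟨b1, b3⟩ := hH1 H (by omega)
  obtain ⟨T, a1, a2, a3, a4⟩ := hH2 H (by omega)
  have hT0 : (0 : ℝ) < T := by exact_mod_cast (by omega : 0 < T)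
  have hlogTH : Real.log T ≤ Real.log H := Real.log_le_log hT0 (by exact_mod_cast a2)
  have hlogT0 : 0 ≤ Real.log T := Real.log_nonneg (by exact_mod_cast (by omega : 1 ≤ T))
  have hQT : (Real.log T) ^ (CE k) ≤ 2 * Q := by
    have h1 : (Real.log T) ^ (CE k) ≤ (Real.log H) ^ (CE k) := pow_le_pow_left₀ hlogT0 hlogTH _
    have h2 : (0 : ℝ) ≤ Q := Nat.cast_nonneg _
    linarith
  have hQQ : ((Q0 : ℝ) + 2) ≤ Q := by
    have e1 : Real.log H ≤ (Real.log H) ^ (CE k) := le_self_pow₀ b1 (by unfold CE; omega)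
    linarith
  have hQ0 : Q0 ≤ Q := by
    have : (Q0 : ℝ) ≤ Q := by linarith
    exact_mod_cast this
  -- the exceptional tuples of the box
  let p : (Fin k → ℤ × ℤ) → Prop := fun t => ¬ GT Y T Q t ∨ ∃ i, ¬ Pst Y c (t i)
  have hp : (((TB k T).filter p).card : ℝ) ≤ 2 * δ * (T : ℝ) ^ (2 * k) := by
    have hsub : (TB k T).filter p ⊆ (TB k T).filter (fun t => ¬ GT Y T Q t) ∪
        univ.biUnion (fun i : Fin k => (TB k T).filter (fun t => ¬ Pst Y c (t i))) := by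
      intro t ht
      rw [mem_filter] at ht
      rw [mem_union, mem_biUnion]
      rcases ht.2 with h | ⟨i, h⟩
      · exact Or.inl (mem_filter.2 ⟨ht.1, h⟩)
      · exact Or.inr ⟨i, mem_univ _, mem_filter.2 ⟨ht.1, h⟩⟩
    have h1 := (card_le_card hsub).trans ((card_union_le _ _).trans
      (Nat.add_le_add_left card_biUnion_le _))
    have h2 : (((TB k T).filter p).card : ℝ) ≤ (((TB k T).filter (fun t => ¬ GT Y T Q t)).card : ℝ) +
        ∑ i : Fin k, (((TB k T).filter (fun t => ¬ Pst Y c (t i))).card : ℝ) := by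
      exact_mod_cast h1
    have h3 := hX1 T (by omega) Q hQT
    have h4 : ∀ i ∈ (univ : Finset (Fin k)), (((TB k T).filter
        (fun t => ¬ Pst Y c (t i))).card : ℝ) ≤
        δ / ((k + 1) * 9 ^ k) * 9 ^ k * (T : ℝ) ^ (2 * k) := fun i _ =>
      tup_one T (by omega) (fun x => ¬ Pst Y c x) i _ (hX2 T (by omega))
    have h5 := sum_le_sum h4
    rw [sum_const, card_univ, Fintype.card_fin, nsmul_eq_mul] at h5
    have h6 : (k : ℝ) * (δ / ((k + 1) * 9 ^ k) * 9 ^ k * (T : ℝ) ^ (2 * k)) =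
        (k / (k + 1)) * (δ * (T : ℝ) ^ (2 * k)) := by
      field_simp
    have h7 : (k : ℝ) / (k + 1) ≤ 1 := by
      rw [div_le_one (by positivity)]
      linarith
    have h8 : (k : ℝ) / (k + 1) * (δ * (T : ℝ) ^ (2 * k)) ≤ 1 * (δ * (T : ℝ) ^ (2 * k)) :=
      mul_le_mul_of_nonneg_right h7 (by positivity)
    rw [h6] at h5
    linarith
  have h5 := a4 (2 * δ) (by positivity) p hp
  have h6 : (((CT k H).filter (fun x => ¬ c ^ k / 2 * c' * Q / Real.log Q ≤
      ((UQ Q x).card : ℝ))).card : ℝ) ≤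
      (((CT k H).filter (fun x => p (fun i => Ab (x i)))).card : ℝ) := by
    have : (CT k H).filter (fun x => ¬ c ^ k / 2 * c' * Q / Real.log Q ≤
      ((UQ Q x).card : ℝ)) ⊆ (CT k H).filter (fun x => p (fun i => Ab (x i))) := by
      intro x hx
      rw [mem_filter] at hx ⊢
      refine ⟨hx.1, ?_⟩
      by_contra hcon
      change ¬ (¬ GT Y T Q (fun i => Ab (x i)) ∨ ∃ i, ¬ Pst Y c (Ab (x i))) at hcon
      push Not at hcon
      obtain ⟨hG, hP⟩ := hcon
      apply hx.2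
      obtain ⟨S, s2, s3⟩ := many_good2 hc (a3 x hx.1) hG hP
      have hsub : S ⊆ UQ Q x := by
        intro q hq
        obtain ⟨hqp, q1, q2⟩ := s2 q hq
        have hx1 := hx.1
        unfold CT at hx1
        rw [Fintype.mem_piFinset] at hx1
        unfold UQ
        rw [mem_filter, mem_Icc]
        exact ⟨⟨hqp.one_lt.le, q1⟩, one_tuple hk hYge (fun i => pr_EE (hx1 i)) hG.ty1 hqp q2⟩
      have h7 : (S.card : ℝ) ≤ ((UQ Q x).card : ℝ) := by exact_mod_cast card_le_card hsub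
      refine le_trans ?_ (s3.trans h7)
      have h8 := hpnt Q hQ0
      have h9 : 0 ≤ c ^ k / 2 := by positivity
      calc c ^ k / 2 * c' * Q / Real.log Q = c ^ k / 2 * (c' * Q / Real.log Q) := by ring
        _ ≤ _ := mul_le_mul_of_nonneg_left h8 h9
    exact_mod_cast card_le_card this
  refine h6.trans (h5.trans ?_)
  apply mul_le_mul_of_nonneg_right _ (by positivity)
  rw [hδ]
  have e1 : 2 * (ε / (2 * (K + 1))) * K = ε * (K / (K + 1)) := by
    field_simp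
  rw [e1]
  have e2 : K / (K + 1) ≤ 1 := by
    rw [div_le_one (by positivity)]
    linarith
  nlinarith

end Pool.Agent.K1H97.ST
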