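import Pool.Agent.K1H97.ST.Lin
import Pool.Agent.Y667.SX.Main
import Pool.Agent.Y212.RZ.Selc2
import Pool.Agent.Y676.One

/-!
# The number of the Selmer classes
-/

set_option autoImplicit false

namespace Pool.Agent.K1H97.ST

open Finset
open Pool.Agent.Y676
open Pool.Agent.K1H97.CU
open Pool.Agent.K1H97.FU (sq_pad sq_two pT_U pr_U supp)
open Pool.Agent.Y703.CQ (nr)
open Pool.Agent.W307.SE (Loc SelR)
open Pool.Agent.W307.RT (Sh HasT)
open Pool.Agent.TH841.SH.D (Sha)

/-- the parity of the exponent of `q` -/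
def PQ (q : ℕ) (n : ℤ) : Bool := decide (Odd (vT {q} n))

lemma PQ_sqf {q : ℕ} (hq : q.Prime) {n : ℤ} (hn : Squarefree n) : PQ q n = true ↔ (q : ℤ) ∣ n := by
  unfold PQ
  rw [vT_sqf {q} (fun p hp => by rw [mem_singleton.1 hp]; exact hq) hn, decide_eq_true_iff]
  by_cases h : (q : ℤ) ∣ n
  · rw [filter_singleton, if_pos h, card_singleton]
    exact ⟨fun _ => h, fun _ => odd_one⟩
  · rw [filter_singleton, if_neg h, card_empty]
    exact ⟨fun h' => absurd h' (by decide), fun h' => absurd h' h⟩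

lemma pT_single (q : ℕ) : pT {q} = q := by
  unfold pT
  rw [prod_singleton]

/-- the parities of the translations -/
lemma par_TT {q : ℕ} (hq : q.Prime) {A B d' : ℤ} (hA : ¬ (q : ℤ) ∣ A) (hB : ¬ (q : ℤ) ∣ B)
    (hAB : ¬ (q : ℤ) ∣ A - B) (hd : ¬ (q : ℤ) ∣ d') (v w : Bool) :
    ((TT (q * d' * A) (q * d' * B) v w).1 ≠ 0 ∧ (TT (q * d' * A) (q * d' * B) v w).2 ≠ 0) ∧
    Even (vT {q} (TT (q * d' * A) (q * d' * B) v w).1 + (if v then 1 else 0)) ∧
      Even (vT {q} (TT (q * d' * A) (q * d' * B) v w).2 + (if w then 1 else 0)) := by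
  have hqi : Prime (q : ℤ) := Nat.prime_iff_prime_int.1 hq
  have hTp : ∀ p ∈ ({q} : Finset ℕ), p.Prime := fun p hp => by rw [mem_singleton.1 hp]; exact hq
  have nz : ∀ {u : ℤ}, ¬ (q : ℤ) ∣ u → u ≠ 0 := fun h h0 => h (by rw [h0]; exact dvd_zero _)
  have nd : ∀ {u v : ℤ}, ¬ (q : ℤ) ∣ u → ¬ (q : ℤ) ∣ v → ¬ (q : ℤ) ∣ u * v := fun hu hv h =>
    (hqi.dvd_or_dvd h).elim hu hv
  have hBA : ¬ (q : ℤ) ∣ B - A := fun h => hAB (by
    have : A - B = -(B - A) := by ring
    rw [this]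
    exact (dvd_neg).2 h)
  have p0 : vT {q} 1 = 0 := by
    rw [vT_pow hTp 0 (m := 1) (by rw [pow_zero, one_mul]) (fun p hp h =>
      (Nat.prime_iff_prime_int.1 (hTp p hp)).not_isUnit (isUnit_of_dvd_one h)) one_ne_zero,
      zero_mul]
  have pk : ∀ {n m : ℤ} (j : ℕ), n = (q : ℤ) ^ j * m → ¬ (q : ℤ) ∣ m → vT {q} n = j := by
    intro n m j hn hm
    rw [vT_pow hTp j (m := m) (by rw [pT_single]; exact hn) (fun p hp => by
      rw [mem_singleton.1 hp]; exact hm) (nz hm), card_singleton, mul_one]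
  have q0 := hqi.ne_zero
  unfold TT
  cases v <;> cases w
  · exact ⟨⟨one_ne_zero, one_ne_zero⟩, by change Even (vT {q} 1 + 0); rw [p0]; exact ⟨0, rfl⟩,
      by change Even (vT {q} 1 + 0); rw [p0]; exact ⟨0, rfl⟩⟩
  · refine ⟨⟨?_, ?_⟩, ?_, ?_⟩
    · exact mul_ne_zero (mul_ne_zero (mul_ne_zero q0 (nz hd)) (nz hA))
        (mul_ne_zero (mul_ne_zero q0 (nz hd)) (nz hB))
    · exact neg_ne_zero.2 (mul_ne_zero (mul_ne_zero q0 (nz hd)) (nz hA))
    · change Even (vT {q} (q * d' * A * (q * d' * B)) + 0)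
      rw [pk 2 (m := d' * A * (d' * B)) (by ring) (nd (nd hd hA) (nd hd hB))]
      decide
    · change Even (vT {q} (-(q * d' * A)) + 1)
      rw [pk 1 (m := -(d' * A)) (by ring) (fun h => nd hd hA ((dvd_neg).1 h))]
      decide
  · refine ⟨⟨?_, ?_⟩, ?_, ?_⟩
    · exact mul_ne_zero (mul_ne_zero q0 (nz hd)) (nz hA)
    · change q * d' * A * (q * d' * A - q * d' * B) ≠ 0
      rw [← mul_sub]
      exact mul_ne_zero (mul_ne_zero (mul_ne_zero q0 (nz hd)) (nz hA))
        (mul_ne_zero (mul_ne_zero q0 (nz hd)) (nz hAB))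
    · change Even (vT {q} (q * d' * A) + 1)
      rw [pk 1 (m := d' * A) (by ring) (nd hd hA)]
      decide
    · change Even (vT {q} (q * d' * A * (q * d' * A - q * d' * B)) + 0)
      rw [pk 2 (m := d' * A * (d' * (A - B))) (by ring) (nd (nd hd hA) (nd hd hAB))]
      decide
  · refine ⟨⟨?_, ?_⟩, ?_, ?_⟩
    · exact mul_ne_zero (mul_ne_zero q0 (nz hd)) (nz hB)
    · change q * d' * B - q * d' * A ≠ 0
      rw [← mul_sub]
      exact mul_ne_zero (mul_ne_zero q0 (nz hd)) (nz hBA)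
    · change Even (vT {q} (q * d' * B) + 1)
      rw [pk 1 (m := d' * B) (by ring) (nd hd hB)]
      decide
    · change Even (vT {q} (q * d' * B - q * d' * A) + 1)
      rw [pk 1 (m := d' * (B - A)) (by ring) (nd hd hBA)]
      decide

/-- the parities of three classes with product a square -/
lemma par_rel {q : ℕ} {n t g : ℤ} {b : Bool} (hn : n ≠ 0) (ht : t ≠ 0) (hg : g ≠ 0)
    (hsq : IsSquare (n * t * g)) (hev : Even (vT {q} t + (if b then 1 else 0))) :
    PQ q n = (b ^^ PQ q g) := by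
  have h5 := vT_sq {q} (mul_ne_zero (mul_ne_zero hn ht) hg) hsq
  rw [vT_mul {q} (mul_ne_zero hn ht) hg, vT_mul {q} hn ht] at h5
  unfold PQ
  rw [Nat.even_iff] at h5 hev
  by_cases h1 : Odd (vT {q} n) <;> by_cases h2 : Odd (vT {q} g) <;>
    simp only [h1, h2, decide_true, decide_false] <;> cases b <;>
    (try rw [Nat.not_odd_iff_even, Nat.even_iff] at h1) <;>
    (try rw [Nat.not_odd_iff_even, Nat.even_iff] at h2) <;>
    (try rw [Nat.odd_iff] at h1) <;> (try rw [Nat.odd_iff] at h2) <;>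
    simp at hev ⊢ <;> omega

section

variable {Y : ℕ} {A B : ℤ} {s : ℕ → Bool} {q : ℕ} {n : ℕ} {r : Fin n → ℕ}

/-- the classes unramified at `q` -/
def S0 (D : ℤ) (A B : ℤ) (q : ℕ) : Set (ℤ × ℤ) :=
  {f | InSel (D * A) (D * B) f ∧ ¬ (q : ℤ) ∣ f.1 ∧ ¬ (q : ℤ) ∣ f.2}

/-- the translations by the points of order two -/
theorem card_four (hq : q.Prime) {d' : ℤ} (hA : ¬ (q : ℤ) ∣ A) (hB : ¬ (q : ℤ) ∣ B)
    (hAB : ¬ (q : ℤ) ∣ A - B) (hd : ¬ (q : ℤ) ∣ d') (hfin : (S0 (q * d') A B q).Finite) :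
    {e | InSel (q * d' * A) (q * d' * B) e}.Finite ∧
      {e | InSel (q * d' * A) (q * d' * B) e}.ncard = 4 * (S0 (q * d') A B q).ncard := by
  classical
  have hqi : Prime (q : ℤ) := Nat.prime_iff_prime_int.1 hq
  have nz : ∀ {u : ℤ}, ¬ (q : ℤ) ∣ u → u ≠ 0 := fun h h0 => h (by rw [h0]; exact dvd_zero _)
  have q0 := hqi.ne_zero
  have hA0 : q * d' * A ≠ 0 := mul_ne_zero (mul_ne_zero q0 (nz hd)) (nz hA)
  have hB0 : q * d' * B ≠ 0 := mul_ne_zero (mul_ne_zero q0 (nz hd)) (nz hB)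
  have hAB0 : q * d' * A - q * d' * B ≠ 0 := by
    rw [← mul_sub]
    exact mul_ne_zero (mul_ne_zero q0 (nz hd)) (nz hAB)
  have hpar := par_TT hq hA hB hAB hd
  have hex : ∀ e : ℤ × ℤ, ∃ f : ℤ × ℤ, InSel (q * d' * A) (q * d' * B) e →
      InSel (q * d' * A) (q * d' * B) f ∧
      IsSquare (e.1 * (TT (q * d' * A) (q * d' * B) (PQ q e.1) (PQ q e.2)).1 * f.1) ∧
      IsSquare (e.2 * (TT (q * d' * A) (q * d' * B) (PQ q e.1) (PQ q e.2)).2 * f.2) := by
    intro e
    by_cases he : InSel (q * d' * A) (q * d' * B) e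
    · obtain ⟨f, h1, h2⟩ := sel_TT hA0 hB0 hAB0 he (PQ q e.1) (PQ q e.2)
      exact ⟨f, fun _ => ⟨h1, h2⟩⟩
    · exact ⟨e, fun h => absurd h he⟩
  choose g hg using hex
  have trans : ∀ {u v t : ℤ}, t ≠ 0 → Squarefree u → Squarefree v → IsSquare (u * t) →
      IsSquare (v * t) → u = v := by
    intro u v t ht0 hu hv h1 h2
    have ht0' : (t : ℚ) ≠ 0 := by exact_mod_cast ht0
    refine Pool.Agent.W839.SH.sqf_eq hu hv (sq_mul_trans ht0' ?_ ?_)
    · have := h1.map (Int.castRingHom ℚ)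
      simpa using this
    · have := h2.map (Int.castRingHom ℚ)
      rw [mul_comm]
      simpa using this
  have hbij : Set.BijOn (fun e : ℤ × ℤ => ((PQ q e.1, PQ q e.2), g e))
      {e | InSel (q * d' * A) (q * d' * B) e} (Set.univ ×ˢ S0 (q * d') A B q) := by
    refine ⟨?_, ?_, ?_⟩
    · intro e he
      obtain ⟨k1, k2, k3⟩ := hg e he
      obtain ⟨⟨t1, t2⟩, t3, t4⟩ := hpar (PQ q e.1) (PQ q e.2)
      have a1 := par_rel he.sq1.ne_zero t1 k1.sq1.ne_zero k2 t3
      have a2 := par_rel he.sq2.ne_zero t2 k1.sq2.ne_zero k3 t4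
      refine ⟨Set.mem_univ _, k1, ?_, ?_⟩
      · rw [← PQ_sqf hq k1.sq1]
        intro h
        rw [h] at a1
        revert a1
        cases PQ q e.1 <;> decide
      · rw [← PQ_sqf hq k1.sq2]
        intro h
        rw [h] at a2
        revert a2
        cases PQ q e.2 <;> decide
    · intro e he e' he' h
      simp only [Prod.mk.injEq] at h
      obtain ⟨⟨h1, h2⟩, h3⟩ := h
      obtain ⟨k1, k2, k3⟩ := hg e he
      obtain ⟨k1', k2', k3'⟩ := hg e' he'
      rw [← h1, ← h2, ← h3] at k2' k3'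
      obtain ⟨⟨t1, t2⟩, -, -⟩ := hpar (PQ q e.1) (PQ q e.2)
      rw [mul_assoc] at k2 k3 k2' k3'
      exact Prod.ext
        (trans (mul_ne_zero t1 k1.sq1.ne_zero) he.sq1 he'.sq1 k2 k2')
        (trans (mul_ne_zero t2 k1.sq2.ne_zero) he.sq2 he'.sq2 k3 k3')
    · rintro ⟨⟨v, w⟩, f⟩ ⟨-, hf, hf1, hf2⟩
      obtain ⟨e, h1, h2, h3⟩ := sel_TT hA0 hB0 hAB0 hf v w
      obtain ⟨⟨t1, t2⟩, t3, t4⟩ := hpar v w
      have b1 : IsSquare (e.1 * (TT (q * d' * A) (q * d' * B) v w).1 * f.1) := by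
        rw [mul_comm, ← mul_assoc, mul_assoc, mul_comm e.1, ← mul_assoc]
        exact h2
      have b2 : IsSquare (e.2 * (TT (q * d' * A) (q * d' * B) v w).2 * f.2) := by
        rw [mul_comm, ← mul_assoc, mul_assoc, mul_comm e.2, ← mul_assoc]
        exact h3
      have c1 : PQ q f.1 = false := by
        rw [← Bool.not_eq_true, PQ_sqf hq hf.sq1]
        exact hf1
      have c2 : PQ q f.2 = false := by
        rw [← Bool.not_eq_true, PQ_sqf hq hf.sq2]
        exact hf2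
      have a1 := par_rel h1.sq1.ne_zero t1 hf.sq1.ne_zero b1 t3
      have a2 := par_rel h1.sq2.ne_zero t2 hf.sq2.ne_zero b2 t4
      rw [c1, Bool.xor_false] at a1
      rw [c2, Bool.xor_false] at a2
      obtain ⟨k1, k2, k3⟩ := hg e h1
      rw [a1, a2] at k2 k3
      refine ⟨e, h1, ?_⟩
      have e1 : g e = f := by
        have t1' := mul_ne_zero h1.sq1.ne_zero t1
        have t2' := mul_ne_zero h1.sq2.ne_zero t2
        refine Prod.ext (trans t1' k1.sq1 hf.sq1 ?_ ?_) (trans t2' k1.sq2 hf.sq2 ?_ ?_)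
        · rw [mul_comm]; exact k2
        · rw [mul_comm]; exact b1
        · rw [mul_comm]; exact k3
        · rw [mul_comm]; exact b2
      change ((PQ q e.1, PQ q e.2), g e) = ((v, w), f)
      rw [a1, a2, e1]
  have hfin2 : (Set.univ ×ˢ S0 (q * d') A B q : Set ((Bool × Bool) × (ℤ × ℤ))).Finite :=
    Set.finite_univ.prod hfin
  have hfin3 : {e | InSel (q * d' * A) (q * d' * B) e}.Finite := by
    refine Set.Finite.of_finite_image ?_ hbij.injOn
    rw [hbij.image_eq]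
    exact hfin2
  refine ⟨hfin3, ?_⟩
  rw [← hbij.injOn.ncard_image, hbij.image_eq, Set.ncard_prod, Set.ncard_univ,
    Nat.card_eq_fintype_card]
  rfl

lemma filter_pT {S T : Finset ℕ} (hT : ∀ p ∈ T, p.Prime) (hS : S ⊆ T) :
    T.filter (fun p : ℕ => (p : ℤ) ∣ pT S) = S := by
  ext p
  rw [mem_filter]
  constructor
  · rintro ⟨h1, h2⟩
    by_contra h
    exact nd_pT (fun r hr => hT r (hS hr)) (hT p h1) h h2
  · intro h
    refine ⟨hS h, ?_⟩
    rw [pT_erase h]
    exact Dvd.intro _ rfl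

/-- the classes unramified at `q` are the pairs of elements of the kernel -/
theorem card_S0 (hY : 2 ≤ Y) (h1 : Ty1 Y A B) (hs : ∀ e, InS Y A B s e → e = (1, 1))
    (hq : GoodQ Y A B s q) (hr : Function.Injective r) (hT : GS Y A B q (univ.image r)) :
    (S0 (pT (insert q (univ.image r))) A B q).Finite ∧
      (S0 (pT (insert q (univ.image r))) A B q).ncard = (Ker q r).ncard ^ 2 := by
  have hTp := hT.pr
  have hq2 : q ≠ 2 := by
    have := hq.m8
    omega
  have hq4 : q % 4 = 1 := by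
    have := hq.m8
    omega
  have hbij : Set.BijOn (fun w : (Fin n → ZMod 2) × (Fin n → ZMod 2) =>
      (pT (im r w.1), pT (im r w.2))) (Ker q r ×ˢ Ker q r)
      (S0 (pT (insert q (univ.image r))) A B q) := by
    refine ⟨?_, ?_, ?_⟩
    · rintro ⟨w1, w2⟩ ⟨hw1, hw2⟩
      have hrow : ∀ w ∈ Ker q r, ∀ p ∈ univ.image r, Row q (univ.image r) (im r w) p := by
        intro w hw p hp
        obtain ⟨j, -, rfl⟩ := mem_image.1 hp
        exact (row_iff hr hq.pr hT w j).2 (hw j)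
      have nq : ∀ w, ¬ (q : ℤ) ∣ pT (im r w) := fun w =>
        nd_pT (fun p hp => hTp p (im_sub w hp)) hq.pr (fun h => hT.nq (im_sub w h))
      exact ⟨conv hq2 hT hq.pr (im_sub w1) (im_sub w2) (hrow w1 hw1) (hrow w2 hw2)
        (ker_q hr hq.pr hq4 hT hw1) (ker_q hr hq.pr hq4 hT hw2), nq w1, nq w2⟩
    · rintro ⟨w1, w2⟩ - ⟨w1', w2'⟩ - h
      simp only [Prod.mk.injEq] at h
      have inj : ∀ {w w' : Fin n → ZMod 2}, pT (im r w) = pT (im r w') → w = w' := by
        intro w w' h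
        apply im_inj hr
        rw [← filter_pT hTp (im_sub w), ← filter_pT hTp (im_sub w'), h]
      rw [inj h.1, inj h.2]
    · rintro ⟨f1, f2⟩ ⟨hf, k1, k2⟩
      obtain ⟨c1, c2⟩ := core hY h1 hs hq hT hf k1 k2
      simp only at c1 c2
      obtain ⟨w1, hw1⟩ := im_surj hr (S := (univ.image r).filter (fun p : ℕ => (p : ℤ) ∣ f1))
        (filter_subset _ _)
      obtain ⟨w2, hw2⟩ := im_surj hr (S := (univ.image r).filter (fun p : ℕ => (p : ℤ) ∣ f2))
        (filter_subset _ _)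
      rw [hw1] at c1
      rw [hw2] at c2
      rw [c1, c2] at hf
      have hrow := fun j => rows hT hq.pr (im_sub w1) (im_sub w2) hf
        (mem_image_of_mem r (mem_univ j))
      refine ⟨(w1, w2), ⟨fun j => (row_iff hr hq.pr hT w1 j).1 (hrow j).1,
        fun j => (row_iff hr hq.pr hT w2 j).1 (hrow j).2⟩, ?_⟩
      change (pT (im r w1), pT (im r w2)) = (f1, f2)
      rw [c1, c2]
  have hfin : (Ker q r).Finite := Set.toFinite _
  constructor
  · rw [← hbij.image_eq]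
    exact (hfin.prod hfin).image _
  · rw [← hbij.image_eq, hbij.injOn.ncard_image, Set.ncard_prod, pow_two]

/-- the reduced Laplacian modulo `2` of the graph of the nonresidues of the primes `q` and
`r 0, r 1, ...`: the row and the column of `q` are deleted -/
noncomputable def Lap (q : ℕ) (r : Fin n → ℕ) : Matrix (Fin n) (Fin n) (ZMod 2) :=
  Matrix.of fun i j => if i = j then (∑ k, nr (r i) (r k)) + nr (r i) q else nr (r i) (r j)

lemma lap_mulVec (q : ℕ) (r : Fin n → ℕ) (w : Fin n → ZMod 2) (j : Fin n) :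
    (Lap q r).mulVec w j = nr (r j) q * w j + ∑ k, nr (r j) (r k) * (w k + w j) := by
  change ∑ k, (if j = k then (∑ k, nr (r j) (r k)) + nr (r j) q else nr (r j) (r k)) * w k = _
  have h1 : ∀ k, (if j = k then (∑ k, nr (r j) (r k)) + nr (r j) q else nr (r j) (r k)) * w k =
      nr (r j) (r k) * w k + (if j = k then ((∑ k, nr (r j) (r k)) + nr (r j) q) * w k else 0) := by
    intro k
    by_cases h : j = k
    · rw [if_pos h, if_pos h, ← h, nr_self, zero_mul, zero_add]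
    · rw [if_neg h, if_neg h, add_zero]
  simp only [h1]
  rw [sum_add_distrib, sum_ite_eq, if_pos (mem_univ _)]
  simp only [mul_add, sum_add_distrib]
  rw [← sum_mul]
  ring

lemma ker_card (q : ℕ) (r : Fin n → ℕ) : (Ker q r).ncard = 2 ^ (n - (Lap q r).rank) := by
  have e : Ker q r = ((LinearMap.ker (Lap q r).mulVecLin : Submodule (ZMod 2) (Fin n → ZMod 2)) :
      Set (Fin n → ZMod 2)) := by
    ext w
    rw [SetLike.mem_coe, LinearMap.mem_ker, Matrix.mulVecLin_apply]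
    constructor
    · intro h
      funext j
      rw [lap_mulVec]
      exact h j
    · intro h j
      rw [← lap_mulVec, h]
      rfl
  rw [e]
  have h1 := LinearMap.finrank_range_add_finrank_ker (Lap q r).mulVecLin
  rw [Module.finrank_fintype_fun_eq_card, Fintype.card_fin] at h1
  have h2 : (Lap q r).rank = Module.finrank (ZMod 2) (LinearMap.range (Lap q r).mulVecLin) := rfl
  have h3 := Module.natCard_eq_pow_finrank (K := ZMod 2)
    (V := LinearMap.ker (Lap q r).mulVecLin)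
  rw [Nat.card_eq_fintype_card (α := ZMod 2), ZMod.card] at h3
  rw [← Nat.card_coe_set_eq]
  change Nat.card (LinearMap.ker (Lap q r).mulVecLin) = _
  rw [h3, h2]
  congr 1
  omega

end

end Pool.Agent.K1H97.ST
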