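import Pool.Agent.K1H97.FU.Core

/-!
# The twist by a good prime and primes in the trivial class: the Selmer classes
-/

set_option autoImplicit false

namespace Pool.Agent.K1H97.ST

open Finset
open Pool.Agent.Y676
open Pool.Agent.K1H97.CU
open Pool.Agent.K1H97.FU (sq_pad sq_two pT_U pr_U supp)
open Pool.Agent.W307.SE (Loc)
open Pool.Agent.W262.RK (dv sgn sg0)

/-- the conditions on the additional primes: they are in the class of `1` -/
structure GS (Y : ℕ) (A B : ℤ) (q : ℕ) (T : Finset ℕ) : Prop where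
  pr : ∀ r ∈ T, r.Prime
  cg : ∀ r ∈ T, r ≡ 1 [MOD MM Y A B]
  nq : q ∉ T

section

variable {Y : ℕ} {A B : ℤ} {q : ℕ} {T : Finset ℕ}

lemma GS.m8 (hT : GS Y A B q T) : ∀ r ∈ T, r % 8 = 1 := by
  intro r hr
  have h1 : r ≡ 1 [MOD 8] := (hT.cg r hr).of_dvd (by
    unfold MM
    exact (Dvd.intro _ rfl : 8 ∣ 8 * Y.factorial).mul_right _)
  exact h1

/-- the additional primes are squares modulo the primes of the modulus -/
lemma GS.sq (hT : GS Y A B q T) {p : ℕ} (hp : p ∣ MM Y A B) :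
    ∀ r ∈ T, jacobiSym (r : ℤ) p = 1 := by
  intro r hr
  have h1 : (r : ℤ) % (p : ℤ) = (1 : ℤ) % (p : ℤ) := by
    exact_mod_cast (hT.cg r hr).of_dvd hp
  rw [jacobiSym.mod_left, h1, ← jacobiSym.mod_left, jacobiSym.one_left]

lemma dvd_bad {p : ℕ} (h : (p : ℤ) ∣ A * B * (A - B)) : p ∣ MM Y A B := by
  unfold MM
  exact (Int.natCast_dvd.1 h).mul_left _

lemma dvd_small {p : ℕ} (hp : p.Prime) (h : p ≤ Y) : p ∣ MM Y A B := by
  unfold MM
  exact (((hp.dvd_factorial).2 h).mul_left _).mul_right _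

lemma GS.ndM (hT : GS Y A B q T) : ∀ r ∈ T, ¬ r ∣ MM Y A B := by
  intro r hr hd
  have h1 : r % r = 1 % r := (hT.cg r hr).of_dvd hd
  have h2 := (hT.pr r hr).one_lt
  rw [Nat.mod_self, Nat.mod_eq_of_lt h2] at h1
  omega

lemma GS.nd (hT : GS Y A B q T) : ∀ r ∈ T, ¬ (r : ℤ) ∣ A * B * (A - B) := fun r hr h =>
  hT.ndM r hr (dvd_bad h)

lemma GS.jac (hT : GS Y A B q T) {g : ℤ} (hg : g ∣ A * B * (A - B)) :
    ∀ r ∈ T, jacobiSym g r = 1 := by
  intro r hr
  have h4 : 4 * g.natAbs ∣ MM Y A B := by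
    unfold MM
    obtain ⟨m, hm⟩ := Int.natAbs_dvd_natAbs.2 hg
    rw [hm]
    exact ⟨2 * Y.factorial * m, by ring⟩
  have h8 := hT.m8 r hr
  rw [jac_mod h4 (Nat.odd_iff.2 (by omega)) odd_one (hT.cg r hr), jacobiSym.one_right]

lemma GS.jneg (hT : GS Y A B q T) : ∀ r ∈ T, jacobiSym (-1) r = 1 := by
  intro r hr
  have h8 := hT.m8 r hr
  rw [jacobiSym.at_neg_one (Nat.odd_iff.2 (by omega)), ZMod.χ₄_nat_one_mod_four (by omega)]

lemma GS.sqs (hT : GS Y A B q T) (p : ℕ) [hp : Fact p.Prime] (hpY : p ≤ Y) :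
    ∀ r ∈ T, IsSquare ((r : ℤ) : ℚ_[p]) := by
  intro r hr
  by_cases hp2 : p = 2
  · subst hp2
    exact sq_two (hT.m8 r hr)
  · exact sq_pad hp2 (hT.sq (dvd_small hp.out hpY) r hr)

/-- the symbol of a product of additional primes at a prime of the modulus -/
lemma GS.jpT (hT : GS Y A B q T) {p : ℕ} (hp : p ∣ MM Y A B) {S : Finset ℕ} (hS : S ⊆ T) :
    jacobiSym (pT S) p = 1 := by
  rw [jac_prod S p 1 fun r hr => hT.sq hp r (hS hr), one_pow]

/-- **the classes which are unramified at `q`** -/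
theorem core (hY : 2 ≤ Y) (h1 : Ty1 Y A B) {s : ℕ → Bool}
    (hs : ∀ e, InS Y A B s e → e = (1, 1)) (hq : GoodQ Y A B s q) (hT : GS Y A B q T)
    {f : ℤ × ℤ} (hf : InSel (pT (insert q T) * A) (pT (insert q T) * B) f)
    (q1 : ¬ (q : ℤ) ∣ f.1) (q2 : ¬ (q : ℤ) ∣ f.2) :
    f.1 = pT (T.filter (fun r : ℕ => (r : ℤ) ∣ f.1)) ∧
      f.2 = pT (T.filter (fun r : ℕ => (r : ℤ) ∣ f.2)) := by
  have hTp := hT.pr
  have hUp := pr_U hq.pr hTp
  have hf1 := hf.sq1.ne_zero
  have hf2 := hf.sq2.ne_zero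
  obtain ⟨T1, hT1⟩ : ∃ T1, T1 = T.filter (fun r : ℕ => (r : ℤ) ∣ f.1) := ⟨_, rfl⟩
  obtain ⟨T2, hT2⟩ : ∃ T2, T2 = T.filter (fun r : ℕ => (r : ℤ) ∣ f.2) := ⟨_, rfl⟩
  have sub1 : T1 ⊆ T := by rw [hT1]; exact filter_subset _ _
  have sub2 : T2 ⊆ T := by rw [hT2]; exact filter_subset _ _
  obtain ⟨g1, e1, sq1, n1'⟩ := split T hTp hf.sq1
  obtain ⟨g2, e2, sq2, n2'⟩ := split T hTp hf.sq2
  rw [← hT1] at e1 ⊢
  rw [← hT2] at e2 ⊢
  have n1 : ∀ r ∈ insert q T, ¬ (r : ℤ) ∣ g1 := by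
    intro r hr h
    rw [mem_insert] at hr
    rcases hr with rfl | hr
    · exact q1 (by rw [e1]; exact h.mul_left _)
    · exact n1' r hr h
  have n2 : ∀ r ∈ insert q T, ¬ (r : ℤ) ∣ g2 := by
    intro r hr h
    rw [mem_insert] at hr
    rcases hr with rfl | hr
    · exact q2 (by rw [e2]; exact h.mul_left _)
    · exact n2' r hr h
  obtain ⟨U, hU⟩ : ∃ U, U = insert q T := ⟨_, rfl⟩
  have hUe : pT U = q * pT T := by rw [hU]; exact pT_U hT.nq
  rw [← hU] at hf n1 n2 hUp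
  have key : (g1, g2) = ((1 : ℤ), (1 : ℤ)) := by
    apply hs
    refine ⟨sq1, sq2, ?_, ?_, ?_, ?_⟩
    · have hpos : (0 : ℝ) < (pT U : ℝ) := by exact_mod_cast pT_pos hUp
      have hsqr : ∀ S ⊆ T, IsSquare ((pT S : ℤ) : ℝ) := by
        intro S hS
        have : (0 : ℝ) < (pT S : ℝ) := by exact_mod_cast pT_pos fun q hq => hTp q (hS hq)
        exact ⟨Real.sqrt (pT S), (Real.mul_self_sqrt this.le).symm⟩
      have h := loc_scale (r := Real.sqrt (pT U)) (Real.sqrt_pos.2 hpos).ne'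
        (by rw [Real.sq_sqrt hpos.le]) hf.re
      exact loc_cls' (by exact_mod_cast hf1) (by exact_mod_cast hf2)
        (cls_F e1 (hsqr T1 sub1)) (cls_F e2 (hsqr T2 sub2)) h
    · intro p hp hpY
      have hsqr : ∀ S ⊆ T, IsSquare ((pT S : ℤ) : ℚ_[p]) := fun S hS =>
        isSquare_pT S fun q hq => hT.sqs p hpY q (hS hq)
      have hsqU : IsSquare ((pT U : ℤ) : ℚ_[p]) := by
        rw [hUe, Int.cast_mul]
        exact (goodq_sq hq p hpY).mul (hsqr T (Subset.refl _))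
      obtain ⟨r, hr⟩ := hsqU
      have hr0 : r ≠ 0 := by
        rintro rfl
        rw [mul_zero] at hr
        exact pT_ne hUp (by exact_mod_cast hr)
      have h := loc_scale hr0 (by rw [hr, pow_two]) (hf.lo p)
      exact loc_cls' (by exact_mod_cast hf1) (by exact_mod_cast hf2)
        (cls_F e1 (hsqr T1 sub1)) (cls_F e2 (hsqr T2 sub2)) h
    · intro p hp hYp hN
      have : Fact p.Prime := ⟨hp⟩
      by_cases hpU : p ∈ U
      · exact ⟨n1 p hpU, n2 p hpU⟩
      · have hg := supp hf hY hYp (nd_pT hUp hp hpU) hN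
        refine ⟨fun h => hg.1 ?_, fun h => hg.2 ?_⟩
        · rw [e1]
          exact h.mul_left _
        · rw [e2]
          exact h.mul_left _
    · intro p hp hYp
      have : Fact p.Prime := ⟨hp⟩
      by_cases hN : (p : ℤ) ∣ A * B * (A - B)
      · have hpM : p ∣ MM Y A B := dvd_bad hN
        have hpT : p ∉ T := fun h => hT.nd p h hN
        have hpq : p ≠ q := fun h => hq.nd (h ▸ hN)
        have hpU : p ∉ U := by
          rw [hU, mem_insert]
          exact fun h => h.elim hpq hpT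
        have hsQ : sQ A B (pT U) p = s p := by
          rw [← hq.sg p hp hYp hN, sQ_eq, sQ_eq, hUe]
          unfold sg0
          rw [jacobiSym.mul_left, jacobiSym.mul_left, jacobiSym.mul_left,
            hT.jpT hpM (Subset.refl _), mul_one]
        have hL := lc_of_loc (by omega) (nd_pT hUp hp hpU) (h1 p hp hYp) hf.sq1 hf.sq2 (hf.lo p)
        have a1 := sgn_mul (g := g1) hp (nd_pT (fun q hq => hTp q (sub1 hq)) hp
          (fun h => hpT (sub1 h))) (hT.jpT hpM sub1)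
        have a2 := sgn_mul (g := g2) hp (nd_pT (fun q hq => hTp q (sub2 hq)) hp
          (fun h => hpT (sub2 h))) (hT.jpT hpM sub2)
        rw [← e1] at a1
        rw [← e2] at a2
        unfold Lc at hL ⊢
        rw [a1.1, a1.2, a2.1, a2.2, hsQ] at hL
        exact hL
      · exact Pool.Agent.K1H97.FC.lc_triv hN
  rw [Prod.mk.injEq] at key
  rw [key.1, mul_one] at e1
  rw [key.2, mul_one] at e2
  exact ⟨e1, e2⟩

/-- the condition at an additional prime -/
def Row (q : ℕ) (T T1 : Finset ℕ) (r : ℕ) : Prop :=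
  if r ∈ T1 then jacobiSym (pT (T1.erase r) * pT ((insert q T).erase r)) r = 1
    else jacobiSym (pT T1) r = 1

/-- the trivial class is a local class -/
lemma loc_one (p : ℕ) [hp : Fact p.Prime] (A B : ℤ) : Loc ℚ_[p] A B 1 1 := by
  obtain ⟨x, y, hy, hxy, h0, h1, h2⟩ := Pool.Agent.TH841.SH.pt_pad p 0 A B
  rw [Int.cast_zero, sub_zero] at hxy h0
  exact ⟨x, y, hy, hxy, by simpa using h0, by simpa using h1⟩

lemma loc_one_real (A B : ℤ) : Loc ℝ A B 1 1 := by
  obtain ⟨x, y, hy, hxy, h0, h1, h2⟩ := Pool.Agent.TH841.SH.pt_real 0 A B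
  rw [Int.cast_zero, sub_zero] at hxy h0
  exact ⟨x, y, hy, hxy, by simpa using h0, by simpa using h1⟩

/-- the class translated by a point of order two, at an additional prime -/
lemma shape (hT : GS Y A B q T) (hqp : q.Prime) {T1 T2 : Finset ℕ} (sub1 : T1 ⊆ T)
    (sub2 : T2 ⊆ T) {r : ℕ} (hr : r ∈ T) (hv : r ∈ T1 ∨ r ∈ T2) : ∃ m1 m2 : ℤ,
      pT T1 * (TT (pT (insert q T) * A) (pT (insert q T) * B) (decide (r ∈ T1))
        (decide (r ∈ T2))).1 = (r : ℤ) ^ 2 * m1 ∧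
      pT T2 * (TT (pT (insert q T) * A) (pT (insert q T) * B) (decide (r ∈ T1))
        (decide (r ∈ T2))).2 = (r : ℤ) ^ 2 * m2 ∧
      ¬ (r : ℤ) ∣ m1 ∧ ¬ (r : ℤ) ∣ m2 ∧ (jacobiSym m1 r = 1 ↔ Row q T T1 r) ∧
      (jacobiSym m2 r = 1 ↔ Row q T T2 r) := by
  have hTp := hT.pr
  have hrp := hTp r hr
  have hrF : Fact r.Prime := ⟨hrp⟩
  have hri : Prime (r : ℤ) := Nat.prime_iff_prime_int.1 hrp
  have hUp := pr_U hqp hTp
  have hrU : r ∈ insert q T := mem_insert_of_mem hr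
  have hnd := hT.nd r hr
  have dA : ¬ (r : ℤ) ∣ A := fun h => hnd ((h.mul_right _).mul_right _)
  have dB : ¬ (r : ℤ) ∣ B := fun h => hnd ((h.mul_left _).mul_right _)
  have dAB : ¬ (r : ℤ) ∣ A - B := fun h => hnd (h.mul_left _)
  have dBA : ¬ (r : ℤ) ∣ B - A := fun h => dAB (by
    have : A - B = -(B - A) := by ring
    rw [this]
    exact (dvd_neg).2 h)
  have nd : ∀ {u v : ℤ}, ¬ (r : ℤ) ∣ u → ¬ (r : ℤ) ∣ v → ¬ (r : ℤ) ∣ u * v := by
    intro u v hu hv h
    exact (hri.dvd_or_dvd h).elim hu hv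
  have n1 : ¬ (r : ℤ) ∣ -1 := fun h => hri.not_isUnit (isUnit_of_dvd_unit h (by decide))
  obtain ⟨U, hU⟩ : ∃ U, U = insert q T := ⟨_, rfl⟩
  rw [← hU] at hUp hrU
  obtain ⟨d', hd'⟩ : ∃ d', d' = pT (U.erase r) := ⟨_, rfl⟩
  have hd : pT U = r * d' := by rw [hd']; exact pT_erase hrU
  have nd' : ¬ (r : ℤ) ∣ d' := by
    rw [hd']
    exact nd_pT (fun r hr => hUp r (mem_of_mem_erase hr)) hrp (notMem_erase r U)
  have nin : ∀ S ⊆ T, ¬ (r : ℤ) ∣ pT (S.erase r) := fun S hS =>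
    nd_pT (fun r' hr' => hTp r' (hS (mem_of_mem_erase hr'))) hrp (notMem_erase r S)
  have nout : ∀ S ⊆ T, r ∉ S → ¬ (r : ℤ) ∣ pT S := fun S hS hqS =>
    nd_pT (fun r' hr' => hTp r' (hS hr')) hrp hqS
  have JA : jacobiSym A r = 1 := hT.jac ⟨B * (A - B), by ring⟩ r hr
  have JB : jacobiSym B r = 1 := hT.jac ⟨A * (A - B), by ring⟩ r hr
  have JAB : jacobiSym (A - B) r = 1 := hT.jac ⟨A * B, by ring⟩ r hr
  have J1 := hT.jneg r hr
  have JBA : jacobiSym (B - A) r = 1 := by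
    have : B - A = -1 * (A - B) := by ring
    rw [this, jacobiSym.mul_left, J1, JAB, one_mul]
  have Jdd : jacobiSym d' r * jacobiSym d' r = 1 := by
    rcases jac_pm hrp nd' with h | h <;> rw [h] <;> norm_num
  unfold Row
  rw [← hU, ← hd']
  by_cases i1 : r ∈ T1 <;> by_cases i2 : r ∈ T2
  · refine ⟨pT (T1.erase r) * d' * B, pT (T2.erase r) * d' * (B - A), ?_, ?_,
      nd (nd (nin T1 sub1) nd') dB, nd (nd (nin T2 sub2) nd') dBA, ?_, ?_⟩
    · rw [decide_eq_true i1, decide_eq_true i2]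
      change pT T1 * (pT U * B) = _
      rw [pT_erase i1, hd]
      ring
    · rw [decide_eq_true i1, decide_eq_true i2]
      change pT T2 * (pT U * B - pT U * A) = _
      rw [pT_erase i2, hd]
      ring
    · rw [if_pos i1, jacobiSym.mul_left _ B, JB, mul_one]
    · rw [if_pos i2, jacobiSym.mul_left _ (B - A), JBA, mul_one]
  · refine ⟨pT (T1.erase r) * d' * A, pT T2 * (d' * d') * (A * (A - B)), ?_, ?_,
      nd (nd (nin T1 sub1) nd') dA, nd (nd (nout T2 sub2 i2) (nd nd' nd')) (nd dA dAB), ?_, ?_⟩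
    · rw [decide_eq_true i1, decide_eq_false i2]
      change pT T1 * (pT U * A) = _
      rw [pT_erase i1, hd]
      ring
    · rw [decide_eq_true i1, decide_eq_false i2]
      change pT T2 * (pT U * A * (pT U * A - pT U * B)) = _
      rw [hd]
      ring
    · rw [if_pos i1, jacobiSym.mul_left _ A, JA, mul_one]
    · rw [if_neg i2, jacobiSym.mul_left, jacobiSym.mul_left, jacobiSym.mul_left d' d',
        jacobiSym.mul_left A, JA, JAB, Jdd, mul_one, mul_one, mul_one]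
  · refine ⟨pT T1 * (d' * d') * (A * B), -1 * (pT (T2.erase r) * d' * A), ?_, ?_,
      nd (nd (nout T1 sub1 i1) (nd nd' nd')) (nd dA dB),
      nd n1 (nd (nd (nin T2 sub2) nd') dA), ?_, ?_⟩
    · rw [decide_eq_false i1, decide_eq_true i2]
      change pT T1 * (pT U * A * (pT U * B)) = _
      rw [hd]
      ring
    · rw [decide_eq_false i1, decide_eq_true i2]
      change pT T2 * (-(pT U * A)) = _
      rw [pT_erase i2, hd]
      ring
    · rw [if_neg i1, jacobiSym.mul_left, jacobiSym.mul_left, jacobiSym.mul_left d' d',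
        jacobiSym.mul_left A, JA, JB, Jdd, mul_one, mul_one, mul_one]
    · rw [if_pos i2, jacobiSym.mul_left, J1, one_mul, jacobiSym.mul_left _ A, JA, mul_one]
  · exact absurd hv (by rintro (h | h) <;> contradiction)

/-- **the conditions at the additional primes** -/
theorem rows (hT : GS Y A B q T) (hqp : q.Prime) {T1 T2 : Finset ℕ} (sub1 : T1 ⊆ T)
    (sub2 : T2 ⊆ T) (hf : InSel (pT (insert q T) * A) (pT (insert q T) * B) (pT T1, pT T2))
    {r : ℕ} (hr : r ∈ T) : Row q T T1 r ∧ Row q T T2 r := by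
  have hTp := hT.pr
  have hrp := hTp r hr
  have hrF : Fact r.Prime := ⟨hrp⟩
  have hm8 := hT.m8 r hr
  have hr2 : r ≠ 2 := by omega
  have hUp := pr_U hqp hTp
  have hrU : r ∈ insert q T := mem_insert_of_mem hr
  have hnd := hT.nd r hr
  have dA : ¬ (r : ℤ) ∣ A := fun h => hnd ((h.mul_right _).mul_right _)
  have dB : ¬ (r : ℤ) ∣ B := fun h => hnd ((h.mul_left _).mul_right _)
  have dAB : ¬ (r : ℤ) ∣ A - B := fun h => hnd (h.mul_left _)
  have hd : pT (insert q T) = r * pT ((insert q T).erase r) := pT_erase hrU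
  have nd' : ¬ (r : ℤ) ∣ pT ((insert q T).erase r) :=
    nd_pT (fun r hr => hUp r (mem_of_mem_erase hr)) hrp (notMem_erase r _)
  by_cases hv : r ∈ T1 ∨ r ∈ T2
  · obtain ⟨m1, m2, a1, a2, a3, a4, a5, a6⟩ := shape hT hqp sub1 sub2 hr hv
    have k := add_cls hr2 dA dB dAB hd nd' (hf.lo r) (decide (r ∈ T1)) (decide (r ∈ T2)) a1 a2
      a3 a4
    exact ⟨a5.1 k.1, a6.1 k.2⟩
  · push Not at hv
    have nout : ∀ S ⊆ T, r ∉ S → ¬ (r : ℤ) ∣ pT S := fun S hS hqS =>
      nd_pT (fun r' hr' => hTp r' (hS hr')) hrp hqS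
    have k := add_unr hr2 dA dB hd nd' (nout T1 sub1 hv.1) (nout T2 sub2 hv.2) (hf.lo r)
    unfold Row
    rw [if_neg hv.1, if_neg hv.2]
    exact k

/-- the local class at an additional prime -/
lemma loc_r (hT : GS Y A B q T) (hqp : q.Prime) {T1 T2 : Finset ℕ} (sub1 : T1 ⊆ T)
    (sub2 : T2 ⊆ T) {r : ℕ} [hrF : Fact r.Prime] (hr : r ∈ T) (h1 : Row q T T1 r)
    (h2 : Row q T T2 r) :
    Loc ℚ_[r] (pT (insert q T) * A) (pT (insert q T) * B) (pT T1) (pT T2) := by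
  have hTp := hT.pr
  have hrp := hTp r hr
  have hm8 := hT.m8 r hr
  have hr2 : r ≠ 2 := by omega
  have hUp := pr_U hqp hTp
  have hnd := hT.nd r hr
  have dA : A ≠ 0 := by
    rintro rfl
    exact hnd (by simp)
  have dB : B ≠ 0 := by
    rintro rfl
    exact hnd (by simp)
  have dAB : A - B ≠ 0 := by
    intro h
    exact hnd (by rw [h]; simp)
  have hU0 := pT_ne hUp
  have hne : ∀ {u : ℤ}, u ≠ 0 → ((u : ℤ) : ℚ_[r]) ≠ 0 := fun h => by exact_mod_cast h
  have h0 := loc_one r (pT (insert q T) * A) (pT (insert q T) * B)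
  by_cases hv : r ∈ T1 ∨ r ∈ T2
  · obtain ⟨m1, m2, a1, a2, a3, a4, a5, a6⟩ := shape hT hqp sub1 sub2 hr hv
    have hk := loc_TT (hne (mul_ne_zero hU0 dA)) (hne (mul_ne_zero hU0 dB)) (by
      have : ((pT (insert q T) * A : ℤ) : ℚ_[r]) - ((pT (insert q T) * B : ℤ) : ℚ_[r]) =
          ((pT (insert q T) * (A - B) : ℤ) : ℚ_[r]) := by
        push_cast; ring
      rw [this]
      exact hne (mul_ne_zero hU0 dAB)) h0 (decide (r ∈ T1)) (decide (r ∈ T2))
    rw [one_mul, one_mul] at hk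
    have s1 := sq_pad hr2 (a5.2 h1)
    have s2 := sq_pad hr2 (a6.2 h2)
    have hr0 : (r : ℤ) ≠ 0 := by exact_mod_cast hrp.ne_zero
    have hm : ∀ {m : ℤ}, ¬ (r : ℤ) ∣ m → (r : ℤ) ^ 2 * m ≠ 0 := fun h =>
      mul_ne_zero (pow_ne_zero 2 hr0) (fun h' => h (by rw [h']; exact dvd_zero _))
    have t1 : (TT (pT (insert q T) * A) (pT (insert q T) * B) (decide (r ∈ T1))
        (decide (r ∈ T2))).1 ≠ 0 := right_ne_zero_of_mul (a1 ▸ hm a3)
    have t2 : (TT (pT (insert q T) * A) (pT (insert q T) * B) (decide (r ∈ T1))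
        (decide (r ∈ T2))).2 ≠ 0 := right_ne_zero_of_mul (a2 ▸ hm a4)
    have hsq : ∀ {u t m : ℤ}, u * t = (r : ℤ) ^ 2 * m → IsSquare ((m : ℤ) : ℚ_[r]) →
        IsSquare (((t : ℤ) : ℚ_[r]) * ((u : ℤ) : ℚ_[r])) := by
      intro u t m h1 h2
      have h3 : ((t : ℤ) : ℚ_[r]) * ((u : ℤ) : ℚ_[r]) = ((r : ℚ_[r]) ^ 2) * ((m : ℤ) : ℚ_[r]) := by
        rw [mul_comm]
        exact_mod_cast congrArg (Int.cast : ℤ → ℚ_[r]) h1
      rw [h3]
      exact (IsSquare.sq _).mul h2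
    exact loc_cls' (hne t1) (hne t2) (hsq a1 s1) (hsq a2 s2) hk
  · push Not at hv
    unfold Row at h1 h2
    rw [if_neg hv.1] at h1
    rw [if_neg hv.2] at h2
    refine loc_cls' (by simp) (by simp) ?_ ?_ h0
    · rw [Int.cast_one, one_mul]
      exact sq_pad hr2 h1
    · rw [Int.cast_one, one_mul]
      exact sq_pad hr2 h2

lemma sqf_pT {S : Finset ℕ} (hS : ∀ q ∈ S, q.Prime) : Squarefree (pT S) := by
  unfold pT
  rw [← Int.squarefree_natAbs, Int.natAbs_natCast]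
  exact sub_sqf hS

/-- **the converse** -/
theorem conv (hq2 : q ≠ 2) (hT : GS Y A B q T) (hqp : q.Prime)
    {T1 T2 : Finset ℕ} (sub1 : T1 ⊆ T) (sub2 : T2 ⊆ T) (h1 : ∀ r ∈ T, Row q T T1 r)
    (h2 : ∀ r ∈ T, Row q T T2 r) (q1 : jacobiSym (pT T1) q = 1) (q2 : jacobiSym (pT T2) q = 1) :
    InSel (pT (insert q T) * A) (pT (insert q T) * B) (pT T1, pT T2) := by
  have hTp := hT.pr
  have p1 : ∀ r ∈ T1, r.Prime := fun r hr => hTp r (sub1 hr)
  have p2 : ∀ r ∈ T2, r.Prime := fun r hr => hTp r (sub2 hr)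
  have hUp := pr_U hqp hTp
  refine ⟨sqf_pT p1, sqf_pT p2, ?_, fun p hp => ?_⟩
  · refine loc_cls' (by simp) (by simp) ?_ ?_ (loc_one_real _ _)
    · rw [Int.cast_one, one_mul]
      have : (0 : ℝ) < (pT T1 : ℝ) := by exact_mod_cast pT_pos p1
      exact ⟨Real.sqrt (pT T1), (Real.mul_self_sqrt this.le).symm⟩
    · rw [Int.cast_one, one_mul]
      have : (0 : ℝ) < (pT T2 : ℝ) := by exact_mod_cast pT_pos p2
      exact ⟨Real.sqrt (pT T2), (Real.mul_self_sqrt this.le).symm⟩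
  · have triv : IsSquare ((pT T1 : ℤ) : ℚ_[p]) → IsSquare ((pT T2 : ℤ) : ℚ_[p]) →
        Loc ℚ_[p] (pT (insert q T) * A) (pT (insert q T) * B) (pT T1) (pT T2) := by
      intro s1 s2
      refine loc_cls' (by simp) (by simp) ?_ ?_ (loc_one p _ _)
      · rwa [Int.cast_one, one_mul]
      · rwa [Int.cast_one, one_mul]
    by_cases hpT : p ∈ T
    · exact loc_r hT hqp sub1 sub2 hpT (h1 p hpT) (h2 p hpT)
    by_cases hpq : p = q
    · subst hpq
      exact triv (sq_pad hq2 q1) (sq_pad hq2 q2)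
    by_cases hpM : p ∣ MM Y A B
    · by_cases hp2 : p = 2
      · subst hp2
        exact triv (isSquare_pT T1 fun r hr => sq_two (hT.m8 r (sub1 hr)))
          (isSquare_pT T2 fun r hr => sq_two (hT.m8 r (sub2 hr)))
      · exact triv (sq_pad hp2 (hT.jpT hpM sub1)) (sq_pad hp2 (hT.jpT hpM sub2))
    · have hpi : Prime (p : ℤ) := Nat.prime_iff_prime_int.1 hp.out
      have hpU : p ∉ insert q T := by
        rw [mem_insert]
        exact fun h => h.elim hpq hpT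
      refine Pool.Agent.Y105.RZ.GOODS p _ _ _ _ ?_
        (nd_pT p1 hp.out fun h => hpT (sub1 h)) (nd_pT p2 hp.out fun h => hpT (sub2 h))
      intro h
      have e5 : 2 * (pT (insert q T) * A) * (pT (insert q T) * B) *
        (pT (insert q T) * A - pT (insert q T) * B) =
          (2 * (pT (insert q T)) ^ 3) * (A * B * (A - B)) := by ring
      rw [e5] at h
      rcases hpi.dvd_or_dvd h with h | h
      · rcases hpi.dvd_or_dvd h with h | h
        · have h6 : p ∣ 2 := by exact_mod_cast h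
          apply hpM
          unfold MM
          exact ((h6.trans (by norm_num : 2 ∣ 8)).mul_right _).mul_right _
        · exact nd_pT hUp hp.out hpU (hpi.dvd_of_dvd_pow h)
      · exact hpM (dvd_bad h)

end

end Pool.Agent.K1H97.ST
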