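import Pool.Agent.K1H97.ST.Sym

/-!
# The coranks of random symmetric forms with a fixed part
-/

set_option autoImplicit false

open scoped Classical

namespace Pool.Agent.K1H97.ST

open Function Module
open Pool.Agent.Y759.CX (fr fr_equiv fr_comp)
open Pool.Agent.Y219.CQ (F Sy sp Ns finSy finHom finHom2 card_symm card_mod)

section abs

variable {W N : Type} [AddCommGroup W] [Module F W] [Finite W]
  [AddCommGroup N] [Module F N] [Finite N]

omit [Finite W] in
lemma orth_top {M : W →ₗ[F] W →ₗ[F] F} (hM : ∀ x y, M x y = M y x) :
    LinearMap.BilinForm.orthogonal M ⊤ = LinearMap.ker M := by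
  ext w
  rw [LinearMap.mem_ker]
  constructor
  · intro h
    refine LinearMap.ext fun w' => ?_
    rw [hM]
    exact h w' Submodule.mem_top
  · intro h w' _
    change M w' w = 0
    rw [hM, h]
    rfl

/-- reduction to the quotient of the orthogonal complement of the kernel by its radical -/
theorem red3 (M : W →ₗ[F] W →ₗ[F] F) (hM : ∀ x y, M x y = M y x) (π : W →ₗ[F] N)
    (hπ : Surjective π) :
    ∃ d, d + finrank F (LinearMap.ker
        (π.domRestrict (LinearMap.BilinForm.orthogonal M (LinearMap.ker π)))) =
          finrank F N + finrank F (LinearMap.ker π ⊓ LinearMap.ker M : Submodule F W) ∧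
      ∀ c, fr (fun T : Sy N => finrank F (LinearMap.ker (M + T.1.compl₁₂ π π)) =
        finrank F (LinearMap.ker π ⊓ LinearMap.ker M : Submodule F W) + c) = spc d c := by
  have hR : LinearMap.IsRefl M := fun x y h => by rw [hM]; exact h
  let K : Submodule F W := LinearMap.ker π
  let P : Submodule F W := LinearMap.BilinForm.orthogonal M K
  have hP : ∀ w, w ∈ P ↔ ∀ k, π k = 0 → M w k = 0 := fun w => by
    constructor
    · intro h k hk
      rw [hM]
      exact h k hk
    · intro h k hk
      change M k w = 0
      rw [hM]
      exact h k hk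
  have hfin1 : finrank F K + finrank F P = finrank F W +
      finrank F (K ⊓ LinearMap.ker M : Submodule F W) := by
    have h1 := LinearMap.BilinForm.finrank_add_finrank_orthogonal hR K
    rw [orth_top hM] at h1
    exact h1
  have hfin2 : finrank F N + finrank F K = finrank F W := by
    have h1 := LinearMap.finrank_range_add_finrank_ker π
    rw [LinearMap.range_eq_top.2 hπ, finrank_top] at h1
    exact h1
  let r : P →ₗ[F] N := π.domRestrict P
  let Z := LinearMap.range r
  have hfin3 : finrank F Z + finrank F (LinearMap.ker r) = finrank F P :=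
    LinearMap.finrank_range_add_finrank_ker r
  refine ⟨finrank F Z, by
    change finrank F Z + finrank F (LinearMap.ker r) = finrank F N +
      finrank F (K ⊓ LinearMap.ker M : Submodule F W)
    omega, fun c => ?_⟩
  obtain ⟨σ, hσ⟩ := r.rangeRestrict.exists_rightInverse_of_surjective
    (LinearMap.range_rangeRestrict r)
  have hσ' : ∀ z : Z, π (σ z : W) = z := fun z => congrArg Subtype.val (LinearMap.congr_fun hσ z)
  have hσP : ∀ z : Z, ((σ z : P) : W) ∈ P := fun z => (σ z).2
  let ρ : Sy N →+ Sy Z :=
    { toFun := fun T => ⟨T.1.compl₁₂ Z.subtype Z.subtype, fun x y => T.2 x y⟩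
      map_zero' := rfl
      map_add' := fun _ _ => rfl }
  have hρ : Surjective ρ := by
    obtain ⟨q, hq⟩ := LinearMap.exists_leftInverse_of_injective Z.subtype
      (LinearMap.ker_eq_bot.2 Z.injective_subtype)
    have hq' : ∀ z : Z, q (z : N) = z := fun z => LinearMap.congr_fun hq z
    intro T
    refine ⟨⟨T.1.compl₁₂ q q, fun x y => T.2 _ _⟩, ?_⟩
    refine Subtype.ext (LinearMap.ext fun x => LinearMap.ext fun y => ?_)
    change T.1 (q (x : N)) (q (y : N)) = T.1 x y
    rw [hq', hq']
  let β : Sy Z := ⟨M.compl₁₂ (P.subtype ∘ₗ σ) (P.subtype ∘ₗ σ), fun x y => hM _ _⟩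
  have hval : ∀ (T : Sy N) (z z' : Z), (ρ T + β).1 z z' =
      T.1 (z : N) (z' : N) + M (σ z : W) (σ z' : W) := fun _ _ _ => rfl
  have hdim : ∀ T : Sy N, finrank F (LinearMap.ker (M + T.1.compl₁₂ π π)) =
      finrank F (K ⊓ LinearMap.ker M : Submodule F W) + finrank F (LinearMap.ker (ρ T + β).1) := by
    intro T
    let M' : W →ₗ[F] W →ₗ[F] F := M + T.1.compl₁₂ π π
    have hM' : ∀ w w', M' w w' = M w w' + T.1 (π w) (π w') := fun _ _ => rfl
    have hS' : ∀ w w', M' w w' = M' w' w := fun w w' => by
      rw [hM', hM', hM w w', T.2 (π w) (π w')]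
    have hR' : LinearMap.IsRefl M' := fun x y h => by rw [hS']; exact h
    have h2 : LinearMap.BilinForm.orthogonal M' K = P := by
      ext w
      constructor
      · intro hw k hk
        have h3 : M' k w = 0 := hw k hk
        have h4 : π k = 0 := hk
        rw [hM', h4, map_zero, LinearMap.zero_apply, add_zero] at h3
        exact h3
      · intro hw k hk
        have h4 : π k = 0 := hk
        change M' k w = 0
        rw [hM', h4, map_zero, LinearMap.zero_apply, add_zero]
        exact hw k hk
    let R : Submodule F W := LinearMap.ker M'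
    have hKR : K ⊓ R = K ⊓ LinearMap.ker M := by
      ext w
      rw [Submodule.mem_inf, Submodule.mem_inf]
      refine and_congr_right fun hw => ?_
      have hw' : π w = 0 := hw
      change M' w = 0 ↔ M w = 0
      have h3 : M' w = M w := LinearMap.ext fun w' => by
        rw [hM', hw', map_zero, LinearMap.zero_apply, add_zero]
      rw [h3]
    have hRP : R ≤ P := by
      intro w hw
      have hw' : M' w = 0 := hw
      rw [hP]
      intro k hk
      have h3 : M' w k = 0 := by rw [hw']; rfl
      rwa [hM', hk, map_zero, add_zero] at h3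
    -- the double orthogonal complement
    have hdd : LinearMap.BilinForm.orthogonal M' P = K ⊔ R := by
      have h3 := LinearMap.BilinForm.finrank_add_finrank_orthogonal hR' P
      rw [orth_top hS'] at h3
      have h4 : P ⊓ LinearMap.ker M' = R := inf_eq_right.2 hRP
      rw [h4] at h3
      have h5 := Submodule.finrank_sup_add_finrank_inf_eq K R
      rw [hKR] at h5
      symm
      refine Submodule.eq_of_le_of_finrank_eq (sup_le ?_ ?_) (by omega)
      · intro k hk p hp
        have h6 : π k = 0 := hk
        change M' p k = 0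
        rw [hM', h6, map_zero, add_zero]
        exact (hP p).1 hp k hk
      · intro k hk p _
        have h6 : M' k = 0 := hk
        change M' p k = 0
        rw [hS', h6]
        rfl
    -- the projection of the radical
    let f : R →ₗ[F] N := π.domRestrict R
    have hrk := LinearMap.finrank_range_add_finrank_ker f
    have hker : finrank F (LinearMap.ker f) = finrank F (K ⊓ LinearMap.ker M : Submodule F W) := by
      have h3 : (LinearMap.ker f).map R.subtype = K ⊓ R := by
        ext w
        rw [Submodule.mem_map, Submodule.mem_inf]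
        constructor
        · rintro ⟨x, hx, rfl⟩
          exact ⟨hx, x.2⟩
        · rintro ⟨h4, h5⟩
          exact ⟨⟨w, h5⟩, h4, rfl⟩
      rw [← hKR, ← h3, Submodule.finrank_map_subtype_eq]
    have hran : finrank F (LinearMap.range f) = finrank F (LinearMap.ker (ρ T + β).1) := by
      have h3 : (LinearMap.ker (ρ T + β).1).map Z.subtype = LinearMap.range f := by
        ext z
        rw [Submodule.mem_map, LinearMap.mem_range]
        constructor
        · rintro ⟨z, hz, rfl⟩
          have hz' : (ρ T + β).1 z = 0 := hz
          have h4 : ((σ z : P) : W) ∈ K ⊔ R := by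
            rw [← hdd]
            intro p hp
            change M' p (σ z) = 0
            obtain ⟨z', hz'e⟩ : ∃ z' : Z, (z' : N) = π p := ⟨⟨π p, ⟨⟨p, hp⟩, rfl⟩⟩, rfl⟩
            have h5 : (ρ T + β).1 z z' = 0 := by rw [hz']; rfl
            rw [hval] at h5
            have h6 : π (p - (σ z' : W)) = 0 := by rw [map_sub, hσ', hz'e, sub_self]
            have h7 := (hP _).1 (hσP z) _ h6
            rw [map_sub, sub_eq_zero] at h7
            rw [hS', hM', h7, hσ', ← hz'e, add_comm]
            exact h5
          obtain ⟨k, hk, w, hw, hkw⟩ := Submodule.mem_sup.1 h4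
          refine ⟨⟨w, hw⟩, ?_⟩
          change π w = z
          have h8 : π k = 0 := hk
          rw [← hσ' z, ← hkw, map_add, h8, zero_add]
        · rintro ⟨w, rfl⟩
          have hw : M' w.1 = 0 := w.2
          have hwP : w.1 ∈ P := hRP w.2
          refine ⟨⟨π w.1, ⟨⟨w.1, hwP⟩, rfl⟩⟩, ?_, rfl⟩
          rw [LinearMap.mem_ker]
          refine LinearMap.ext fun z' => ?_
          rw [hval]
          have h5 : π (w.1 - (σ ⟨π w.1, ⟨⟨w.1, hwP⟩, rfl⟩⟩ : W)) = 0 := by
            rw [map_sub, hσ', sub_self]
          have h6 := (hP _).1 (hσP z') _ h5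
          rw [map_sub, sub_eq_zero] at h6
          rw [hM (σ ⟨π w.1, ⟨⟨w.1, hwP⟩, rfl⟩⟩ : W), ← h6, hM]
          have h7 : M' w.1 (σ z') = 0 := by rw [hw]; rfl
          rw [hM', hσ', add_comm] at h7
          exact h7
      rw [← h3, Submodule.finrank_map_subtype_eq]
    change finrank F R = _
    rw [← hrk, hker, hran, add_comm]
  rw [← fr_corank (V := Z) c,
    ← fr_equiv (Equiv.addRight β) (fun S : Sy Z => finrank F (LinearMap.ker S.1) = c),
    ← fr_comp ρ hρ]
  congr 1
  funext T
  rw [hdim]
  refine propext ?_
  change finrank F (K ⊓ LinearMap.ker M : Submodule F W) + finrank F (LinearMap.ker (ρ T + β).1) =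
    finrank F (K ⊓ LinearMap.ker M : Submodule F W) + c ↔
      finrank F (LinearMap.ker (ρ T + β).1) = c
  omega

end abs

end Pool.Agent.K1H97.ST
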