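import Pool.Agent.K1H97.ST.Cork
import Pool.Agent.K1H97.ST.Card

/-!
# The law of the corank of the reduced Laplacian in boxes of primes
-/

set_option autoImplicit false

open scoped Classical

namespace Pool.Agent.K1H97.ST

open Function Module Finset
open Pool.Agent.Y759.CX (fr fr_equiv fr_comp)
open Pool.Agent.Y219.CQ (F Sy sp Ns finSy finHom finHom2 pa pa_surj)
open Pool.Agent.Y703.CQ (nr prs)
open Pool.Agent.R338.EQ (dg dg_apply dg_symm prj prj_apply prj_surj prj_zero prj_one J1 mem_J1
  z2_cases reidx toG symG form_rows clsM mem_clsM nr_symm)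

/-- the law of the corank -/
noncomputable def pc {n : ℕ} (v : Fin n → F) (c : ℕ) : ℝ :=
  if v = 0 then (if c = 0 then 0 else spc (n - 1) (c - 1))
    else spc (if ∑ i, v i = 1 then n - 1 else n - 2) c

lemma finrank_J1 (m : ℕ) : finrank F (J1 m → F) = m := by
  rw [Module.finrank_fintype_fun_eq_card, Fintype.card_coe]
  unfold J1
  rw [card_erase_of_mem (mem_univ _), card_univ, Fintype.card_fin, Nat.add_sub_cancel]

lemma finrank_one {m : ℕ} (P : Submodule F (Fin (m + 1) → F)) (h : (1 : Fin (m + 1) → F) ∈ P) :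
    finrank F (LinearMap.ker ((prj m).domRestrict P)) = 1 := by
  have hne : (⟨⟨1, h⟩, prj_one m⟩ : LinearMap.ker ((prj m).domRestrict P)) ≠ 0 := by
    intro h'
    have h2 : (1 : Fin (m + 1) → F) = 0 := congrArg (fun x => x.1.1) h'
    have h3 := congrFun h2 0
    exact one_ne_zero h3
  refine (finrank_eq_one_iff_of_nonzero' _ hne).2 ?_
  rintro ⟨⟨x, hx⟩, hx0⟩
  refine ⟨x (Fin.last m), Subtype.ext (Subtype.ext ?_)⟩
  exact (prj_zero (w := x) hx0).symm

lemma finrank_ker_prj (m : ℕ) : finrank F (LinearMap.ker (prj m)) = 1 := by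
  have h1 := LinearMap.finrank_range_add_finrank_ker (prj m)
  rw [LinearMap.range_eq_top.2 (prj_surj m), finrank_top, finrank_J1,
    Module.finrank_fintype_fun_eq_card, Fintype.card_fin] at h1
  omega

/-- the law of the corank of the form -/
theorem row_law {m : ℕ} (v : Fin (m + 1) → F) (c : ℕ) :
    fr (fun T : Sy (J1 m → F) =>
      finrank F (LinearMap.ker (dg v + T.1.compl₁₂ (prj m) (prj m))) = c) = pc v c := by
  obtain ⟨d, hd, h⟩ := red3 (dg v) (dg_symm v) (prj m) (prj_surj m)
  rw [finrank_J1] at hd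
  have h11 : dg v 1 1 = ∑ i, v i := by
    rw [dg_apply]
    exact sum_congr rfl fun i _ => by
      change v i * 1 * 1 = v i
      rw [mul_one, mul_one]
  by_cases hv : v = 0
  · have hM : dg v = 0 := by
      refine LinearMap.ext fun w => LinearMap.ext fun w' => ?_
      rw [dg_apply, hv]
      change ∑ i, (0 : F) * w i * w' i = 0
      exact sum_eq_zero fun i _ => by rw [zero_mul, zero_mul]
    have hK : (LinearMap.ker (prj m) ⊓ LinearMap.ker (dg v) : Submodule F (Fin (m + 1) → F)) =
        LinearMap.ker (prj m) := by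
      rw [hM, LinearMap.ker_zero, inf_top_eq]
    rw [hK, finrank_ker_prj, finrank_one _ (by
      intro k _
      change dg v k 1 = 0
      rw [hM]
      rfl)] at hd
    rw [hK, finrank_ker_prj] at h
    unfold pc
    rw [if_pos hv]
    by_cases hc : c = 0
    · rw [if_pos hc]
      unfold fr
      have h2 : Nat.card {T : Sy (J1 m → F) //
          finrank F (LinearMap.ker (dg v + T.1.compl₁₂ (prj m) (prj m))) = c} = 0 := by
        rw [Nat.card_eq_zero]
        refine Or.inl ⟨?_⟩
        rintro ⟨T, hT⟩
        have h3 : LinearMap.ker (prj m) ≤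
            LinearMap.ker (dg v + T.1.compl₁₂ (prj m) (prj m)) := by
          intro w hw
          rw [LinearMap.mem_ker] at hw ⊢
          refine LinearMap.ext fun w' => ?_
          change dg v w w' + T.1 (prj m w) (prj m w') = 0
          rw [hM, hw, map_zero]
          change (0 : F) + 0 = 0
          rw [add_zero]
        have h4 := Submodule.finrank_mono h3
        rw [finrank_ker_prj] at h4
        omega
      rw [h2]
      simp
    · rw [if_neg hc]
      have h5 := h (c - 1)
      rw [show 1 + (c - 1) = c by omega, show d = m by omega] at h5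
      exact h5
  · have hK : (LinearMap.ker (prj m) ⊓ LinearMap.ker (dg v) : Submodule F (Fin (m + 1) → F)) =
        ⊥ := by
      rw [eq_bot_iff]
      rintro w ⟨hw, hw'⟩
      have hw1 : prj m w = 0 := hw
      have hw2 : dg v w = 0 := hw'
      rw [Submodule.mem_bot]
      obtain ⟨i, hi⟩ := Function.ne_iff.1 hv
      have h1 : dg v w (Pi.single i 1) = 0 := by rw [hw2]; rfl
      rw [dg_apply, sum_eq_single i] at h1
      · rw [Pi.single_eq_same, mul_one] at h1
        have h2 : w i = 0 := by
          rcases mul_eq_zero.1 h1 with h3 | h3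
          · exact absurd h3 hi
          · exact h3
        have h3 := prj_zero hw1
        have h4 : w i = w (Fin.last m) := by
          have := congrFun h3 i
          rw [this]
          change w (Fin.last m) * 1 = _
          rw [mul_one]
        rw [h3, ← h4, h2, zero_smul]
      · intro j _ hj
        rw [Pi.single_eq_of_ne hj, mul_zero]
      · intro h'
        exact absurd (mem_univ _) h'
    rw [hK, finrank_bot, add_zero] at hd
    rw [hK, finrank_bot] at h
    unfold pc
    rw [if_neg hv]
    have h5 := h c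
    rw [zero_add] at h5
    rw [h5]
    congr 1
    by_cases hs : ∑ i, v i = 1
    · rw [if_pos hs]
      have h0 : LinearMap.ker ((prj m).domRestrict (LinearMap.BilinForm.orthogonal (dg v)
          (LinearMap.ker (prj m)))) = ⊥ := by
        rw [eq_bot_iff]
        rintro ⟨x, hx⟩ hx0
        have h1 : prj m x = 0 := hx0
        have h2 := prj_zero h1
        have h3 : dg v 1 x = 0 := hx 1 (prj_one m)
        rw [h2, map_smul, h11, hs, smul_eq_mul, mul_one] at h3
        rw [Submodule.mem_bot]
        refine Subtype.ext ?_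
        change x = 0
        rw [h2, h3, zero_smul]
      rw [h0, finrank_bot] at hd
      omega
    · rw [if_neg hs]
      have hs0 : ∑ i, v i = 0 := (z2_cases _).resolve_right hs
      have hmem : (1 : Fin (m + 1) → F) ∈ LinearMap.BilinForm.orthogonal (dg v)
          (LinearMap.ker (prj m)) := by
        intro k hk
        have h2 := prj_zero (w := k) hk
        change dg v k 1 = 0
        rw [h2, map_smul, LinearMap.smul_apply, h11, hs0, smul_zero]
      rw [finrank_one _ hmem] at hd
      omega

section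

variable {n : ℕ}

/-- the reduced Laplacian with given entries -/
def LA (a : Fin n → Fin n → F) (v : Fin n → F) : Matrix (Fin n) (Fin n) F :=
  Matrix.of fun i j => if i = j then (∑ k, a i k) + v i else a i j

lemma la_mulVec (a : Fin n → Fin n → F) (h0 : ∀ i, a i i = 0) (v w : Fin n → F) (j : Fin n) :
    (LA a v).mulVec w j = v j * w j + ∑ k, a j k * (w k + w j) := by
  change ∑ k, (if j = k then (∑ k, a j k) + v j else a j k) * w k = _
  have h1 : ∀ k, (if j = k then (∑ k, a j k) + v j else a j k) * w k =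
      a j k * w k + (if j = k then ((∑ k, a j k) + v j) * w k else 0) := by
    intro k
    by_cases h : j = k
    · rw [if_pos h, if_pos h, ← h, h0, zero_mul, zero_add]
    · rw [if_neg h, if_neg h, add_zero]
  simp only [h1]
  rw [sum_add_distrib, sum_ite_eq, if_pos (mem_univ _)]
  simp only [mul_add, sum_add_distrib]
  rw [← sum_mul]
  ring

/-- the reduced Laplacian of a graph -/
noncomputable def LapG (v : Fin n → F) (G : SimpleGraph (Fin n)) : Matrix (Fin n) (Fin n) F :=
  LA (fun i j => if G.Adj i j then 1 else 0) v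

end

/-- the law of the corank of the reduced Laplacian of a random graph -/
theorem graph_law_c {m : ℕ} (v : Fin (m + 1) → F) (c : ℕ) :
    (Nat.card {G : SimpleGraph (Fin (m + 1)) // m + 1 - (LapG v G).rank = c} : ℝ) /
      Nat.card (SimpleGraph (Fin (m + 1))) = pc v c := by
  have hL : ∃ l, l ∉ J1 m := ⟨Fin.last m, fun h => (mem_J1 _).1 h rfl⟩
  have h1 := row_law v c
  rw [← fr_comp (pa (J1 m)) (pa_surj (J1 m) hL)] at h1
  rw [← h1]
  have h2 := fr_equiv ((reidx m).trans (toG (m + 1))) fun G : SimpleGraph (Fin (m + 1)) =>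
    m + 1 - (LapG v G).rank = c
  refine Eq.trans h2.symm ?_
  congr 1
  funext α
  have hadj : ∀ i j, ((reidx m).trans (toG (m + 1)) α).Adj i j ↔
      i ≠ j ∧ Pool.Agent.Y703.CQ.ext (reidx m α) i j ≠ 0 := fun _ _ => Iff.rfl
  have hval : ∀ i j, (if ((reidx m).trans (toG (m + 1)) α).Adj i j then (1 : F) else 0) =
      Pool.Agent.Y703.CQ.ext (reidx m α) i j := by
    intro i j
    by_cases hij : i = j
    · rw [hij, if_neg (SimpleGraph.irrefl _), Pool.Agent.Y219.CQ.ext_self univ _ j]
    · rcases z2_cases (Pool.Agent.Y703.CQ.ext (reidx m α) i j) with h | h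
      · rw [if_neg fun h' => ((hadj i j).1 h').2 h, h]
      · rw [if_pos ((hadj i j).2 ⟨hij, by rw [h]; exact one_ne_zero⟩), h]
  have hker : LinearMap.ker (dg v + ((pa (J1 m)) α).1.compl₁₂ (prj m) (prj m)) =
      LinearMap.ker (LapG v ((reidx m).trans (toG (m + 1)) α)).mulVecLin := by
    ext w
    rw [LinearMap.mem_ker, LinearMap.mem_ker, Matrix.mulVecLin_apply]
    have h3 := form_rows α v w
    have h4 : (∀ j, v j * w j + ∑ k, Pool.Agent.Y703.CQ.ext (reidx m α) j k * (w k + w j) = 0) ↔
        (LapG v ((reidx m).trans (toG (m + 1)) α)).mulVec w = 0 := by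
      rw [funext_iff]
      refine forall_congr' fun j => ?_
      unfold LapG
      rw [la_mulVec _ (fun i => if_neg (SimpleGraph.irrefl _))]
      simp only [hval]
      rfl
    rw [← h4, ← h3, LinearMap.ext_iff]
    rfl
  have hrk := LinearMap.finrank_range_add_finrank_ker
    (LapG v ((reidx m).trans (toG (m + 1)) α)).mulVecLin
  rw [Module.finrank_fintype_fun_eq_card, Fintype.card_fin] at hrk
  rw [hker]
  have e : m + 1 - (LapG v ((reidx m).trans (toG (m + 1)) α)).rank =
      finrank F (LinearMap.ker (LapG v ((reidx m).trans (toG (m + 1)) α)).mulVecLin) := by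
    unfold Matrix.rank
    omega
  rw [e]

/-- the reduced Laplacian of the primes is the reduced Laplacian of the graph -/
lemma lap_eq {n : ℕ} {q : ℕ} (hq : q.Prime) (hq4 : q % 4 = 1) {p a : Fin n → ℕ}
    (hp : ∀ i, (p i).Prime ∧ p i % 4 = 1) (ha : ∀ i, p i % q = a i % q) :
    Lap q p = LapG (fun i => nr q (a i)) (symG p) := by
  have hadj : ∀ i j, (if (symG p).Adj i j then (1 : F) else 0) = nr (p i) (p j) := by
    intro i j
    have h1 : ∀ i j, nr (p i) (p j) ≠ 0 ↔ ¬ IsSquare ((p j : ℕ) : ZMod (p i)) := by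
      intro i j
      unfold nr
      by_cases h : IsSquare ((p j : ℕ) : ZMod (p i))
      · rw [if_pos h]
        simp [h]
      · rw [if_neg h]
        simp [h]
    have h2 : (symG p).Adj i j ↔ nr (p i) (p j) ≠ 0 := by
      unfold symG
      rw [SimpleGraph.fromRel_adj, ← h1, ← h1, nr_symm (hp j).1 (hp j).2 (hp i).1 (hp i).2, or_self]
      refine ⟨fun h => h.2, fun h => ⟨?_, h⟩⟩
      rintro rfl
      exact h nr_self
    rcases z2_cases (nr (p i) (p j)) with h | h
    · rw [if_neg fun h' => (h2.1 h') h, h]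
    · rw [if_pos (h2.2 (by rw [h]; exact one_ne_zero)), h]
  have hv : ∀ i, nr (p i) q = nr q (a i) := by
    intro i
    rw [nr_symm (hp i).1 (hp i).2 hq hq4]
    unfold nr
    rw [(ZMod.natCast_eq_natCast_iff _ _ _).2 (ha i)]
  ext i j
  unfold Lap LapG LA
  rw [Matrix.of_apply, Matrix.of_apply]
  simp only [hadj, hv]

/-- **the law of the corank in boxes of primes** -/
theorem box_law {n : ℕ} (hn : 0 < n) {q M : ℕ} (hq : q.Prime) (hq4 : q % 4 = 1) (hM : 0 < M)
    (hM4 : 4 ∣ M) (a : Fin n → ℕ) (ha : ∀ i, Nat.Coprime (a i) (M * q)) (ha4 : ∀ i, a i % 4 = 1)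
    (c : ℕ) : ∃ A : ℝ, 0 ≤ A ∧ ∀ (X : Fin n → ℕ) (z : ℕ), 2 ≤ z → (∀ i, z ≤ X i) →
      (∀ i, Real.log (X i) ≤ (z : ℝ) ^ (1 / (24 * n : ℝ))) →
      |(((Fintype.piFinset fun i => clsM (M * q) (a i) (X i)).filter fun p =>
          Injective p ∧ n - (Lap q p).rank = c).card : ℝ) - pc (fun i => nr q (a i)) c *
            (((Fintype.piFinset fun i => clsM (M * q) (a i) (X i)).filter fun p =>
              Injective p).card : ℝ)| ≤
        A * (z : ℝ) ^ (-(1 / 24 : ℝ)) *
          (((Fintype.piFinset fun i => clsM (M * q) (a i) (X i)).filter fun p =>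
            Injective p).card : ℝ) := by
  obtain ⟨m, rfl⟩ : ∃ m, n = m + 1 := ⟨n - 1, by omega⟩
  obtain ⟨A, hA, h⟩ := Pool.Agent.R338.EQ.graph_law hn (Nat.mul_pos hM hq.pos)
    (hM4.mul_right q) a ha ha4 (fun G => m + 1 - (LapG (fun i => nr q (a i)) G).rank = c)
  refine ⟨A, hA, fun X z hz hzX hlog => ?_⟩
  have key := h X z hz hzX hlog
  rw [graph_law_c] at key
  have e : ((Fintype.piFinset fun i => clsM (M * q) (a i) (X i)).filter fun p =>
        Injective p ∧ m + 1 - (Lap q p).rank = c) =
      ((Fintype.piFinset fun i => clsM (M * q) (a i) (X i)).filter fun p =>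
        Injective p ∧ m + 1 - (LapG (fun i => nr q (a i)) (symG p)).rank = c) := by
    refine filter_congr fun p hp => and_congr_right fun _ => ?_
    rw [Fintype.mem_piFinset] at hp
    rw [lap_eq hq hq4 (a := a) (fun i => ?_) (fun i => ?_)]
    · obtain ⟨-, h2, h3⟩ := mem_clsM.1 (hp i)
      refine ⟨h2, ?_⟩
      have h4 : p i % 4 = a i % 4 := Nat.ModEq.of_dvd (hM4.mul_right q) h3
      rw [h4]
      exact ha4 i
    · obtain ⟨-, -, h3⟩ := mem_clsM.1 (hp i)
      exact Nat.ModEq.of_dvd (Dvd.intro_left M rfl) h3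
  rw [e]
  convert key

end Pool.Agent.K1H97.ST
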