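import Pool.Agent.K1H97.ST.Core
import Pool.Agent.R338.EQ.SymRow

/-!
# The conditions of the additional primes as linear equations modulo `2`
-/

set_option autoImplicit false

namespace Pool.Agent.K1H97.ST

open Finset
open Pool.Agent.Y676
open Pool.Agent.K1H97.CU
open Pool.Agent.K1H97.FU (sq_pad sq_two pT_U pr_U supp)
open Pool.Agent.Y703.CQ (nr)

/-- the sign attached to a residue modulo `2` -/
def sgz (x : ZMod 2) : ℤ := if x = 0 then 1 else -1

lemma sgz_add (x y : ZMod 2) : sgz (x + y) = sgz x * sgz y := by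
  revert x y
  decide

lemma sgz_one {x : ZMod 2} : sgz x = 1 ↔ x = 0 := by
  revert x
  decide

lemma sgz_sum {ι : Type} (S : Finset ι) (f : ι → ZMod 2) :
    sgz (∑ i ∈ S, f i) = ∏ i ∈ S, sgz (f i) := by
  classical
  induction S using Finset.induction_on with
  | empty => simp [sgz]
  | insert a S ha ih => rw [sum_insert ha, prod_insert ha, sgz_add, ih]

/-- the symbol of a number at a prime -/
lemma jac_nr {p s : ℕ} (hp : p.Prime) (hs : ¬ (p : ℤ) ∣ s) :
    jacobiSym (s : ℤ) p = sgz (nr p s) := by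
  have hF : Fact p.Prime := ⟨hp⟩
  rw [← jacobiSym.legendreSym.to_jacobiSym]
  have h0 : ((s : ℤ) : ZMod p) ≠ 0 := fun h => hs ((ZMod.intCast_zmod_eq_zero_iff_dvd _ _).1 h)
  have h1 := legendreSym.eq_one_iff p h0
  unfold nr
  by_cases h : IsSquare ((s : ℕ) : ZMod p)
  · rw [if_pos h, h1.2 (by exact_mod_cast h)]
    rfl
  · rw [if_neg h]
    rcases legendreSym.eq_one_or_neg_one p h0 with h2 | h2
    · exact absurd (by exact_mod_cast h1.1 h2) h
    · rw [h2]
      rfl

lemma jac_sum {p : ℕ} (hp : p.Prime) {S : Finset ℕ} (hS : ∀ s ∈ S, s.Prime) (hpS : p ∉ S) :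
    jacobiSym (pT S) p = sgz (∑ s ∈ S, nr p s) := by
  rw [sgz_sum]
  unfold pT
  rw [Nat.cast_prod]
  induction S using Finset.induction_on with
  | empty => simp
  | insert a S ha ih =>
    rw [prod_insert ha, prod_insert ha, jacobiSym.mul_left,
      ih (fun s hs => hS s (mem_insert_of_mem hs)) (fun h => hpS (mem_insert_of_mem h)),
      jac_nr hp]
    intro h
    have h1 : p ∣ a := by exact_mod_cast h
    have h2 := (Nat.prime_dvd_prime_iff_eq hp (hS a (mem_insert_self a S))).1 h1
    exact hpS (by rw [h2]; exact mem_insert_self a S)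

lemma nr_self {p : ℕ} : nr p p = 0 := by
  unfold nr
  rw [if_pos]
  rw [ZMod.natCast_self]
  exact ⟨0, by ring⟩

section

variable {n : ℕ} {r : Fin n → ℕ}

/-- the set of the primes of a vector -/
def im (r : Fin n → ℕ) (w : Fin n → ZMod 2) : Finset ℕ := (univ.filter fun i => w i ≠ 0).image r

lemma im_sub (w : Fin n → ZMod 2) : im r w ⊆ univ.image r := image_subset_image (filter_subset _ _)

lemma mem_im (hr : Function.Injective r) {w : Fin n → ZMod 2} (j : Fin n) :
    r j ∈ im r w ↔ w j ≠ 0 := by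
  unfold im
  rw [mem_image]
  constructor
  · rintro ⟨i, hi, h⟩
    rw [← hr h]
    exact (mem_filter.1 hi).2
  · intro h
    exact ⟨j, mem_filter.2 ⟨mem_univ _, h⟩, rfl⟩

lemma im_inj (hr : Function.Injective r) : Function.Injective (im r) := by
  intro w w' h
  funext j
  have h1 := mem_im (w := w) hr j
  have h2 := mem_im (w := w') hr j
  rw [h] at h1
  have h3 : w j ≠ 0 ↔ w' j ≠ 0 := h1.symm.trans h2
  have key : ∀ a b : ZMod 2, (a ≠ 0 ↔ b ≠ 0) → a = b := by decide
  exact key _ _ h3

lemma im_surj (hr : Function.Injective r) {S : Finset ℕ} (hS : S ⊆ univ.image r) :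
    ∃ w, S = im r w := by
  refine ⟨fun i => if r i ∈ S then 1 else 0, ?_⟩
  ext x
  constructor
  · intro hx
    obtain ⟨j, -, rfl⟩ := mem_image.1 (hS hx)
    rw [mem_im hr]
    simp [hx]
  · intro hx
    obtain ⟨j, -, rfl⟩ := mem_image.1 (im_sub _ hx)
    rw [mem_im hr] at hx
    by_contra h
    simp [h] at hx

lemma sum_im (hr : Function.Injective r) (w : Fin n → ZMod 2) (f : ℕ → ZMod 2) :
    ∑ s ∈ im r w, f s = ∑ k, f (r k) * w k := by
  unfold im
  rw [sum_image fun x _ y _ h => hr h, sum_filter]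
  refine sum_congr rfl fun k _ => ?_
  by_cases h : w k = 0
  · rw [h]
    simp
  · rw [if_pos h]
    have : w k = 1 := by
      revert h
      generalize w k = a
      revert a
      decide
    rw [this, mul_one]

/-- the kernel modulo `2` of the reduced Laplacian of the graph of the nonresidues -/
def Ker (q : ℕ) (r : Fin n → ℕ) : Set (Fin n → ZMod 2) :=
  {w | ∀ j, nr (r j) q * w j + ∑ k, nr (r j) (r k) * (w k + w j) = 0}

variable {Y : ℕ} {A B : ℤ} {q : ℕ}

/-- the condition at an additional prime is a linear equation -/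
lemma row_iff (hr : Function.Injective r) (hq : q.Prime) (hT : GS Y A B q (univ.image r))
    (w : Fin n → ZMod 2) (j : Fin n) :
    Row q (univ.image r) (im r w) (r j) ↔
      nr (r j) q * w j + ∑ k, nr (r j) (r k) * (w k + w j) = 0 := by
  have hTp := hT.pr
  have hrj : r j ∈ univ.image r := mem_image_of_mem r (mem_univ j)
  have hrp := hTp _ hrj
  have hpw : ∀ s ∈ im r w, s.Prime := fun s hs => hTp s (im_sub w hs)
  have hqr : q ∉ univ.image r := hT.nq
  have hS : ∀ s ∈ insert q (univ.image r), s.Prime := by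
    intro s hs
    rw [mem_insert] at hs
    rcases hs with rfl | hs
    · exact hq
    · exact hTp s hs
  unfold Row
  by_cases hw : w j = 0
  · rw [if_neg (by rw [mem_im hr]; exact not_not.2 hw), jac_sum hrp hpw
      (by rw [mem_im hr]; exact not_not.2 hw), sgz_one, sum_im hr, hw, mul_zero, zero_add]
    simp only [add_zero]
  · have hw1 : w j = 1 := by
      revert hw
      generalize w j = a
      revert a
      decide
    rw [if_pos ((mem_im hr j).2 hw), jacobiSym.mul_left,
      jac_sum hrp (fun s hs => hpw s (mem_of_mem_erase hs)) (notMem_erase _ _),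
      jac_sum hrp (fun s hs => hS s (mem_of_mem_erase hs)) (notMem_erase _ _), ← sgz_add, sgz_one,
      sum_erase _ nr_self, sum_erase _ nr_self, sum_im hr, sum_insert hqr,
      sum_image fun x _ y _ h => hr h, hw1, mul_one]
    have e : ∑ k, nr (r j) (r k) * w k + (nr (r j) q + ∑ k, nr (r j) (r k)) =
        nr (r j) q + ∑ k, nr (r j) (r k) * (w k + 1) := by
      simp only [mul_add, sum_add_distrib, mul_one]
      ring
    rw [e]

/-- the condition at the good prime -/
lemma ker_q (hr : Function.Injective r) (hq : q.Prime) (hq4 : q % 4 = 1)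
    (hT : GS Y A B q (univ.image r)) {w : Fin n → ZMod 2} (hw : w ∈ Ker q r) :
    jacobiSym (pT (im r w)) q = 1 := by
  have hTp := hT.pr
  have hrj : ∀ j, r j ∈ univ.image r := fun j => mem_image_of_mem r (mem_univ j)
  have hrp : ∀ j, (r j).Prime := fun j => hTp _ (hrj j)
  have hr4 : ∀ j, r j % 4 = 1 := fun j => by
    have := hT.m8 _ (hrj j)
    omega
  have hpw : ∀ s ∈ im r w, s.Prime := fun s hs => hTp s (im_sub w hs)
  rw [jac_sum hq hpw (fun h => hT.nq (im_sub w h)), sgz_one, sum_im hr]
  have h1 : ∑ j, (nr (r j) q * w j + ∑ k, nr (r j) (r k) * (w k + w j)) = 0 :=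
    sum_eq_zero fun j _ => hw j
  rw [sum_add_distrib, Pool.Agent.R338.EQ.double_zero (fun j k => nr (r j) (r k))
    (fun i j => Pool.Agent.R338.EQ.nr_symm (hrp i) (hr4 i) (hrp j) (hr4 j)) w, add_zero] at h1
  rw [← h1]
  exact sum_congr rfl fun j _ => by
    rw [Pool.Agent.R338.EQ.nr_symm hq hq4 (hrp j) (hr4 j)]

end

end Pool.Agent.K1H97.ST
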