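import Pool.Agent.K1H97.ST.Main
import Pool.Agent.W410.FK.FINH
import Pool.Agent.Y833.SX.Sel
import Pool.Agent.Z864.SX.SelH
import Pool.Agent.W513.FK.Parf

/-!
# The 2-Selmer group of the twist as a set of pairs of square classes
-/

set_option autoImplicit false

namespace Pool.Agent.K1H97.ST

open Finset
open Pool.Agent.W307.SE (SelR Sel sel_fin)
open Pool.Agent.W307.RT (Sh HasT Cv)
open Pool.Agent.Y667.SX (Sel2H)
open Pool.Agent.K1H97.CU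
open Pool.Agent.Y676 (roots_tw)

/-- the two 2-Selmer groups -/
theorem selR_card {A B e1 e2 e3 : ℤ} (hD : 4 * A ^ 3 + 27 * B ^ 2 ≠ 0)
    (hr : ∀ x : ℤ, x ^ 3 + A * x + B = (x - e1) * (x - e2) * (x - e3)) :
    (SelR A B).Finite ∧ Nat.card (Sel2H (Sh A B)) = (SelR A B).ncard := by
  obtain ⟨h12, h13, h23⟩ := Pool.Agent.W402.FK.dist A B e1 e2 e3 hD hr
  have hS : (Sel (e2 - e1) (e3 - e1)).Finite :=
    sel_fin Pool.Agent.W410.FK.seld (sub_ne_zero.2 (Ne.symm h12)) (sub_ne_zero.2 (Ne.symm h13))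
      (fun h => h23 (by linarith))
  obtain ⟨k1, -⟩ := Pool.Agent.Y212.RZ.SELC2 A B e1 e2 e3 (e2 - e1) (e3 - e1) 1 hD hr one_ne_zero
    (by rw [one_pow, mul_one]) (by rw [one_pow, mul_one]) hS
  refine ⟨k1, ?_⟩
  obtain ⟨-, h2⟩ := Pool.Agent.Z864.SX.SELH A B e1 e2 e3 hD hr k1
  obtain ⟨h5⟩ := Pool.Agent.Y833.SX.SEL2 A B e1 e2 e3 hD hr
  exact (Nat.card_congr h5).trans h2

open Classical in
/-- the twist of a curve of the family -/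
theorem twist_data {H : ℕ} {c : ℤ × ℤ} (hc : c ∈ Cv 2 H) {d : ℤ} (hd : d ≠ 0) :
    4 * (d ^ 2 * c.1) ^ 3 + 27 * (d ^ 3 * c.2) ^ 2 ≠ 0 ∧ HasT 2 (Sh (d ^ 2 * c.1) (d ^ 3 * c.2)) ∧
    ∃ e1 e2 e3 : ℤ, ∀ x : ℤ,
      x ^ 3 + d ^ 2 * c.1 * x + d ^ 3 * c.2 = (x - e1) * (x - e2) * (x - e3) := by
  obtain ⟨F, -, hF⟩ := Pool.Agent.W513.FK.parf
  have h1 := hc
  unfold Cv at h1
  obtain ⟨-, hD, -, -, -, hT⟩ := mem_filter.1 h1
  obtain ⟨-, -, -, -, -, e1, e2, e3, hr, -, -⟩ := hF c hD hT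
  obtain ⟨h12, h13, h23⟩ := Pool.Agent.W402.FK.dist c.1 c.2 e1 e2 e3 hD hr
  have hr' := roots_tw hr d
  have hinjD : ∀ {u v : ℤ}, u ≠ v → d * u ≠ d * v := fun h h' => h (mul_left_cancel₀ hd h')
  refine ⟨?_, hasT_of hr' (hinjD h12) (hinjD h13) (hinjD h23), _, _, _, hr'⟩
  have e : 4 * (d ^ 2 * c.1) ^ 3 + 27 * (d ^ 3 * c.2) ^ 2 =
      d ^ 6 * (4 * c.1 ^ 3 + 27 * c.2 ^ 2) := by ring
  rw [e]
  exact mul_ne_zero (pow_ne_zero 6 hd) hD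

end Pool.Agent.K1H97.ST
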