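import Pool.Agent.R338.EQ.SymRow
import Mathlib.LinearAlgebra.Matrix.GeneralLinearGroup.Card

/-!
# The coranks of random symmetric forms over the field with two elements
-/

set_option autoImplicit false

open scoped Classical

namespace Pool.Agent.K1H97.ST

open Function Module
open Pool.Agent.Y759.CX (fr fr_equiv fr_comp)
open Pool.Agent.Y219.CQ (F Sy sp Ns finSy finHom finHom2 card_symm card_mod)

section abs

variable {V : Type} [AddCommGroup V] [Module F V] [Finite V]

theorem card_Sy : Nat.card (Sy V) = 2 ^ (finrank F V * (finrank F V + 1) / 2) := by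
  obtain ⟨n, hn⟩ : ∃ n, n = finrank F V := ⟨_, rfl⟩
  rw [← hn]
  let b : Basis (Fin n) F V := Module.finBasisOfFinrankEq F V hn.symm
  have hsymm : ∀ S : V →ₗ[F] V →ₗ[F] F, S ∈ Sy V ↔
      ((LinearMap.BilinForm.toMatrix b).toEquiv S).IsSymm := by
    intro S
    refine Iff.trans ?_ (LinearMap.BilinForm.isSymm_toMatrix_iff_isSymm (B := S) b).symm
    exact ⟨fun h => ⟨fun x y => h x y⟩, fun h x y => h.eq x y⟩
  have e1 : Sy V ≃ {M : Matrix (Fin n) (Fin n) F // M.IsSymm} :=
    Equiv.subtypeEquiv (LinearMap.BilinForm.toMatrix b).toEquiv hsymm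
  rw [Nat.card_congr e1, card_symm]

theorem card_Ns : (Nat.card {S : Sy V // Ns S.1} : ℝ) =
    sp (finrank F V) * 2 ^ (finrank F V * (finrank F V + 1) / 2) := by
  have h := Pool.Agent.Y219.CQ.fr_Ns (V := V) Pool.Agent.Y839.CQ.t_SYM
  unfold fr at h
  rw [card_Sy, div_eq_iff (by positivity)] at h
  rw [h]
  push_cast
  ring

/-- the forms with given kernel -/
theorem card_ker (U : Submodule F V) :
    Nat.card {S : Sy V // LinearMap.ker S.1 = U} = Nat.card {S : Sy (V ⧸ U) // Ns S.1} := by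
  symm
  have hk : ∀ (S : Sy (V ⧸ U)), Ns S.1 → LinearMap.ker (S.1.compl₁₂ U.mkQ U.mkQ) = U := by
    intro S hS
    ext v
    rw [LinearMap.mem_ker]
    constructor
    · intro h
      have h1 : U.mkQ v = 0 := hS _ fun y => by
        obtain ⟨w, rfl⟩ := U.mkQ_surjective y
        exact LinearMap.congr_fun h w
      rwa [Submodule.mkQ_apply, Submodule.Quotient.mk_eq_zero] at h1
    · intro h
      have h1 : U.mkQ v = 0 := by
        rw [Submodule.mkQ_apply, Submodule.Quotient.mk_eq_zero]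
        exact h
      refine LinearMap.ext fun w => ?_
      rw [LinearMap.compl₁₂_apply, h1, map_zero]
      rfl
  let f : {S : Sy (V ⧸ U) // Ns S.1} → {S : Sy V // LinearMap.ker S.1 = U} :=
    fun S => ⟨⟨S.1.1.compl₁₂ U.mkQ U.mkQ, fun x y => S.1.2 _ _⟩, hk S.1 S.2⟩
  refine Nat.card_congr (Equiv.ofBijective f ⟨?_, ?_⟩)
  · intro S S' h
    have h1 : S.1.1.compl₁₂ U.mkQ U.mkQ = S'.1.1.compl₁₂ U.mkQ U.mkQ :=
      congrArg (fun x => x.1.1) h
    refine Subtype.ext (Subtype.ext (LinearMap.ext fun x => LinearMap.ext fun y => ?_))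
    obtain ⟨x, rfl⟩ := U.mkQ_surjective x
    obtain ⟨y, rfl⟩ := U.mkQ_surjective y
    exact LinearMap.congr_fun (LinearMap.congr_fun h1 x) y
  · rintro ⟨⟨S, hS⟩, hU⟩
    change LinearMap.ker S = U at hU
    obtain ⟨σ, hσ⟩ := U.mkQ.exists_rightInverse_of_surjective
      (LinearMap.range_eq_top.2 U.mkQ_surjective)
    have hσ' : ∀ z, U.mkQ (σ z) = z := fun z => LinearMap.congr_fun hσ z
    have hd : ∀ v, σ (U.mkQ v) - v ∈ U := fun v =>
      (Submodule.Quotient.mk_eq_zero U).1 (by
        rw [← Submodule.mkQ_apply, map_sub, hσ', sub_self])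
    have hS' : ∀ x y, S x y = S y x := hS
    have hS1 : ∀ v w, S (σ (U.mkQ v)) w = S v w := by
      intro v w
      have h1 : σ (U.mkQ v) - v ∈ LinearMap.ker S := (SetLike.ext_iff.1 hU _).2 (hd v)
      rw [LinearMap.mem_ker, map_sub, sub_eq_zero] at h1
      rw [h1]
    have hS2 : ∀ v w, S (σ (U.mkQ v)) (σ (U.mkQ w)) = S v w := by
      intro v w
      rw [hS1, hS' v, hS1, hS']
    refine ⟨⟨⟨S.compl₁₂ σ σ, fun x y => hS _ _⟩, ?_⟩, ?_⟩
    · intro x hx
      obtain ⟨v, rfl⟩ := U.mkQ_surjective x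
      have h1 : v ∈ LinearMap.ker S := by
        rw [LinearMap.mem_ker]
        refine LinearMap.ext fun w => ?_
        have h2 := hx (U.mkQ w)
        rw [← hS2]
        exact h2
      rw [hU] at h1
      rw [Submodule.mkQ_apply, Submodule.Quotient.mk_eq_zero]
      exact h1
    · refine Subtype.ext (Subtype.ext (LinearMap.ext fun x => LinearMap.ext fun y => ?_))
      exact hS2 x y

theorem card_bases {c : ℕ} (K : Submodule F V) (hK : finrank F K = c) :
    Nat.card {s : Fin c → V // LinearIndependent F s ∧ Submodule.span F (Set.range s) = K} =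
      ∏ i : Fin c, (2 ^ c - 2 ^ (i : ℕ)) := by
  have e : {s : Fin c → V // LinearIndependent F s ∧ Submodule.span F (Set.range s) = K} ≃
      {s : Fin c → K // LinearIndependent F s} :=
    { toFun := fun s => ⟨fun i => ⟨s.1 i, by
        have h : s.1 i ∈ Submodule.span F (Set.range s.1) := Submodule.subset_span ⟨i, rfl⟩
        rwa [s.2.2] at h⟩, LinearIndependent.of_comp K.subtype s.2.1⟩
      invFun := fun s => ⟨fun i => (s.1 i : V),
        s.2.map' K.subtype (Submodule.ker_subtype K), by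
          have hli : LinearIndependent F (fun i => (s.1 i : V)) :=
            s.2.map' K.subtype (Submodule.ker_subtype K)
          refine Submodule.eq_of_le_of_finrank_eq (Submodule.span_le.2 ?_) ?_
          · rintro _ ⟨i, rfl⟩
            exact (s.1 i).2
          · rw [finrank_span_eq_card hli, Fintype.card_fin, hK]⟩
      left_inv := fun s => rfl
      right_inv := fun s => rfl }
  rw [Nat.card_congr e, card_linearIndependent (K := F) (V := K) (k := c) (le_of_eq hK.symm), hK,
    ZMod.card]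

theorem corank_count (c : ℕ) (hc : c ≤ finrank F V) :
    (Nat.card {S : Sy V // finrank F (LinearMap.ker S.1) = c} : ℝ) *
        ∏ i : Fin c, ((2 : ℝ) ^ c - 2 ^ (i : ℕ)) =
      (∏ i : Fin c, ((2 : ℝ) ^ (finrank F V) - 2 ^ (i : ℕ))) *
        (sp (finrank F V - c) * 2 ^ ((finrank F V - c) * (finrank F V - c + 1) / 2)) := by
  let X := Σ S : {S : Sy V // finrank F (LinearMap.ker S.1) = c},
    {s : Fin c → V // LinearIndependent F s ∧ Submodule.span F (Set.range s) = LinearMap.ker S.1.1}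
  let Y := Σ s : {s : Fin c → V // LinearIndependent F s},
    {S : Sy V // LinearMap.ker S.1 = Submodule.span F (Set.range s.1)}
  have e : X ≃ Y :=
    { toFun := fun x => ⟨⟨x.2.1, x.2.2.1⟩, ⟨x.1.1, x.2.2.2.symm⟩⟩
      invFun := fun y => ⟨⟨y.2.1, by
        rw [y.2.2, finrank_span_eq_card y.1.2, Fintype.card_fin]⟩, ⟨y.1.1, y.1.2, y.2.2.symm⟩⟩
      left_inv := fun x => rfl
      right_inv := fun y => rfl }
  have := Fintype.ofFinite {S : Sy V // finrank F (LinearMap.ker S.1) = c}
  have := Fintype.ofFinite {s : Fin c → V // LinearIndependent F s}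
  have hX : Nat.card X = Nat.card {S : Sy V // finrank F (LinearMap.ker S.1) = c} *
      ∏ i : Fin c, (2 ^ c - 2 ^ (i : ℕ)) := by
    have h1 : Nat.card X = ∑ S : {S : Sy V // finrank F (LinearMap.ker S.1) = c},
        Nat.card {s : Fin c → V // LinearIndependent F s ∧
          Submodule.span F (Set.range s) = LinearMap.ker S.1.1} := Nat.card_sigma
    rw [h1, Finset.sum_congr rfl fun S _ => card_bases (LinearMap.ker S.1.1) S.2,
      Finset.sum_const, Finset.card_univ, smul_eq_mul, Nat.card_eq_fintype_card]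
  have hY : (Nat.card Y : ℝ) = (∏ i : Fin c, ((2 : ℝ) ^ (finrank F V) - 2 ^ (i : ℕ))) *
        (sp (finrank F V - c) * 2 ^ ((finrank F V - c) * (finrank F V - c + 1) / 2)) := by
    have h1 : Nat.card Y = ∑ s : {s : Fin c → V // LinearIndependent F s},
        Nat.card {S : Sy V // LinearMap.ker S.1 = Submodule.span F (Set.range s.1)} :=
      Nat.card_sigma
    have h2 : ∀ s : {s : Fin c → V // LinearIndependent F s},
        (Nat.card {S : Sy V // LinearMap.ker S.1 = Submodule.span F (Set.range s.1)} : ℝ) =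
          sp (finrank F V - c) * 2 ^ ((finrank F V - c) * (finrank F V - c + 1) / 2) := by
      intro s
      have h3 : finrank F (V ⧸ Submodule.span F (Set.range s.1)) = finrank F V - c := by
        have h4 := Submodule.finrank_quotient_add_finrank (Submodule.span F (Set.range s.1))
        rw [finrank_span_eq_card s.2, Fintype.card_fin] at h4
        omega
      have h5 : Finite (V ⧸ Submodule.span F (Set.range s.1)) :=
        Finite.of_surjective _ (Submodule.mkQ_surjective _)
      rw [card_ker, card_Ns, h3]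
    rw [h1, Nat.cast_sum, Finset.sum_congr rfl fun s _ => h2 s, Finset.sum_const,
      Finset.card_univ, nsmul_eq_mul, ← Nat.card_eq_fintype_card,
      card_linearIndependent (K := F) (V := V) hc, ZMod.card]
    congr 1
    rw [Nat.cast_prod]
    refine Finset.prod_congr rfl fun i _ => ?_
    rw [Nat.cast_sub (Nat.pow_le_pow_right (by norm_num) (i.2.le.trans hc))]
    push_cast
    rfl
  rw [← hY, ← Nat.card_congr e, hX]
  push_cast
  congr 1
  refine Finset.prod_congr rfl fun i _ => ?_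
  rw [Nat.cast_sub (Nat.pow_le_pow_right (by norm_num) i.2.le)]
  push_cast
  rfl

/-- the proportion of the forms of corank `c` -/
noncomputable def spc (m c : ℕ) : ℝ :=
  sp (m - c) * ∏ i ∈ Finset.range c, ((1 - 2 ^ i / 2 ^ m) / (2 ^ (i + 1) - 1))

lemma prod_A (c : ℕ) : ∏ i : Fin c, ((2 : ℝ) ^ c - 2 ^ (i : ℕ)) =
    2 ^ (∑ i ∈ Finset.range c, i) * ∏ i ∈ Finset.range c, ((2 : ℝ) ^ (i + 1) - 1) := by
  rw [Fin.prod_univ_eq_prod_range (fun i => (2 : ℝ) ^ c - 2 ^ i), ← Finset.prod_pow_eq_pow_sum,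
    ← Finset.prod_range_reflect (fun i => (2 : ℝ) ^ (i + 1) - 1), ← Finset.prod_mul_distrib]
  refine Finset.prod_congr rfl fun i hi => ?_
  have hi' := Finset.mem_range.1 hi
  have e : (2 : ℝ) ^ c = 2 ^ i * 2 ^ (c - 1 - i + 1) := by
    rw [← pow_add]
    congr 1
    omega
  rw [e]
  ring

lemma prod_B (m c : ℕ) : ∏ i : Fin c, ((2 : ℝ) ^ m - 2 ^ (i : ℕ)) =
    2 ^ (m * c) * ∏ i ∈ Finset.range c, (1 - (2 : ℝ) ^ i / 2 ^ m) := by
  rw [Fin.prod_univ_eq_prod_range (fun i => (2 : ℝ) ^ m - 2 ^ i), pow_mul,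
    ← Finset.card_range c, ← Finset.prod_const, Finset.card_range, ← Finset.prod_mul_distrib]
  refine Finset.prod_congr rfl fun i _ => ?_
  have h : (2 : ℝ) ^ m ≠ 0 := by positivity
  field_simp

lemma expo {m c : ℕ} (h : c ≤ m) : m * c + (m - c) * (m - c + 1) / 2 =
    m * (m + 1) / 2 + ∑ i ∈ Finset.range c, i := by
  obtain ⟨d, rfl⟩ := Nat.exists_eq_add_of_le h
  rw [Nat.add_sub_cancel_left]
  have h1 := Finset.sum_range_id_mul_two c
  obtain ⟨a, ha⟩ := (Nat.even_mul_succ_self d)
  obtain ⟨b, hb⟩ := (Nat.even_mul_succ_self (c + d))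
  have ha' : d * (d + 1) = 2 * a := by
    have : d * (d + 1) = a + a := ha
    omega
  have hb' : (c + d) * (c + d + 1) = 2 * b := by
    have : (c + d) * (c + d + 1) = b + b := hb
    omega
  rw [ha', hb', Nat.mul_div_cancel_left a (by norm_num), Nat.mul_div_cancel_left b (by norm_num)]
  rcases Nat.eq_zero_or_pos c with rfl | hc
  · simp at ha' hb' ⊢
    omega
  · obtain ⟨c', rfl⟩ : ∃ c', c = c' + 1 := ⟨c - 1, by omega⟩
    rw [Nat.add_sub_cancel] at h1
    nlinarith

theorem fr_corank (c : ℕ) :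
    fr (fun S : Sy V => finrank F (LinearMap.ker S.1) = c) = spc (finrank F V) c := by
  obtain ⟨m, hm⟩ : ∃ m, m = finrank F V := ⟨_, rfl⟩
  rw [← hm]
  by_cases hc : c ≤ m
  · have h1 := corank_count (V := V) c (by rw [← hm]; exact hc)
    rw [← hm, prod_A, prod_B] at h1
    unfold fr spc
    rw [card_Sy, ← hm]
    have hA : (∏ i ∈ Finset.range c, ((2 : ℝ) ^ (i + 1) - 1)) ≠ 0 := by
      refine Finset.prod_ne_zero_iff.2 fun i _ => ?_
      have : (1 : ℝ) < 2 ^ (i + 1) := one_lt_pow₀ (by norm_num) (by omega)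
      linarith
    rw [Finset.prod_div_distrib, Nat.cast_pow, Nat.cast_ofNat, div_eq_iff (by positivity)]
    have h2 : (2 : ℝ) ^ (m * c) * 2 ^ ((m - c) * (m - c + 1) / 2) =
        2 ^ (m * (m + 1) / 2) * 2 ^ (∑ i ∈ Finset.range c, i) := by
      rw [← pow_add, ← pow_add, expo hc]
    have h3 : (2 : ℝ) ^ (∑ i ∈ Finset.range c, i) ≠ 0 := by positivity
    have h4 : (Nat.card {S : Sy V // finrank F (LinearMap.ker S.1) = c} : ℝ) *
        ((2 : ℝ) ^ (∑ i ∈ Finset.range c, i) * ∏ i ∈ Finset.range c, ((2 : ℝ) ^ (i + 1) - 1)) =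
        (∏ i ∈ Finset.range c, (1 - (2 : ℝ) ^ i / 2 ^ m)) * sp (m - c) *
          (2 ^ (m * (m + 1) / 2) * 2 ^ (∑ i ∈ Finset.range c, i)) := by
      rw [h1, ← h2]
      ring
    rw [mul_div_assoc', div_mul_eq_mul_div, eq_div_iff hA]
    have h5 : (2 : ℝ) ^ (∑ i ∈ Finset.range c, i) *
        ((Nat.card {S : Sy V // finrank F (LinearMap.ker S.1) = c} : ℝ) *
          ∏ i ∈ Finset.range c, ((2 : ℝ) ^ (i + 1) - 1)) =
        2 ^ (∑ i ∈ Finset.range c, i) * (sp (m - c) *
          (∏ i ∈ Finset.range c, (1 - (2 : ℝ) ^ i / 2 ^ m)) * 2 ^ (m * (m + 1) / 2)) := by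
      linear_combination h4
    exact mul_left_cancel₀ h3 h5
  · push Not at hc
    have h1 : ∏ i ∈ Finset.range c, ((1 - (2 : ℝ) ^ i / 2 ^ m) / (2 ^ (i + 1) - 1)) = 0 := by
      refine Finset.prod_eq_zero (Finset.mem_range.2 hc) ?_
      rw [div_self (by positivity), sub_self, zero_div]
    unfold spc
    rw [h1, mul_zero]
    unfold fr
    have h2 : Nat.card {S : Sy V // finrank F (LinearMap.ker S.1) = c} = 0 := by
      rw [Nat.card_eq_zero]
      refine Or.inl ⟨?_⟩
      rintro ⟨S, hS⟩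
      have := Submodule.finrank_le (LinearMap.ker S.1)
      omega
    rw [h2]
    simp

end abs

end Pool.Agent.K1H97.ST
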