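import Pool.Agent.K1H97.ST.Card
import Pool.Agent.W672.FK.Lowf

/-!
# The rank and the Tate-Shafarevich group of the twist
-/

set_option autoImplicit false

namespace Pool.Agent.K1H97.ST

open Finset
open Pool.Agent.Y676
open Pool.Agent.K1H97.CU
open Pool.Agent.K1H97.FU (sq_pad sq_two pT_U pr_U supp)
open Pool.Agent.Y703.CQ (nr)
open Pool.Agent.W307.SE (Loc SelR Sel)
open Pool.Agent.W307.RT (Sh HasT)
open Pool.Agent.TH841.SH.D (Sha)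
open Pool.Agent.Y667.SX (Sel2H)

lemma sel_eq (M N : ℤ) : Sel M N = {e | InSel M N e} := by
  ext e
  exact ⟨fun h => ⟨h.1, h.2.1, h.2.2.1, h.2.2.2⟩, fun h => ⟨h.sq1, h.sq2, h.re, h.lo⟩⟩

lemma coefs {A B e1 e2 e3 : ℤ}
    (hr : ∀ x : ℤ, x ^ 3 + A * x + B = (x - e1) * (x - e2) * (x - e3)) :
    e3 = -e1 - e2 ∧ A = e1 * e2 + e1 * e3 + e2 * e3 ∧ B = -(e1 * e2 * e3) := by
  have c0 := hr 0
  have c1 := hr 1
  have c2 := hr (-1)
  have s1 : e1 + e2 + e3 = 0 := by linarith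
  have s2 : A = e1 * e2 + e1 * e3 + e2 * e3 := by linarith
  have s3 : B = -(e1 * e2 * e3) := by linarith
  exact ⟨by linarith, s2, s3⟩

lemma hasT_of {A B e1 e2 e3 : ℤ}
    (hr : ∀ x : ℤ, x ^ 3 + A * x + B = (x - e1) * (x - e2) * (x - e3)) (h12 : e1 ≠ e2)
    (h13 : e1 ≠ e3) (h23 : e2 ≠ e3) : HasT 2 (Sh A B) := by
  obtain ⟨h3, hA, hB⟩ := coefs hr
  have k12 : (e1 : ℚ) ≠ e2 := by exact_mod_cast h12
  have k13 : (e1 : ℚ) ≠ e3 := by exact_mod_cast h13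
  have k23 : (e2 : ℚ) ≠ e3 := by exact_mod_cast h23
  have k3 : (e3 : ℚ) = -e1 - e2 := by exact_mod_cast congrArg (Int.cast : ℤ → ℚ) h3
  have kA : (A : ℚ) = e1 * e2 + e1 * e3 + e2 * e3 := by
    exact_mod_cast congrArg (Int.cast : ℤ → ℚ) hA
  have kB : (B : ℚ) = -(e1 * e2 * e3) := by exact_mod_cast congrArg (Int.cast : ℤ → ℚ) hB
  refine Pool.Agent.W672.FK.hasT2 (a := ((e3 : ℚ) - e1) / 3) (b := ((e2 : ℚ) - e1) / 3) ?_ ?_ ?_ ?_ ?_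
  · rw [kA, k3]
    ring
  · rw [kB, k3]
    ring
  · intro h
    apply k13
    linarith
  · intro h
    apply k12
    linarith
  · intro h
    apply k23
    linarith

section

variable {Y : ℕ} {s : ℕ → Bool} {q : ℕ} {n : ℕ} {r : Fin n → ℕ}

/-- the 2-Selmer group, the rank and the 2-torsion of the Tate-Shafarevich group of the twist -/
def St (c : ℤ × ℤ) (d : ℤ) (m : ℕ) : Prop :=
  (Finite (Sel2H (Sh (d ^ 2 * c.1) (d ^ 3 * c.2))) ∧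
    Nat.card (Sel2H (Sh (d ^ 2 * c.1) (d ^ 3 * c.2))) = 4 ^ (m + 1)) ∧
  Finite {x : Sha (Sh (d ^ 2 * c.1) (d ^ 3 * c.2)) // x + x = 0} ∧
    2 ^ Module.finrank ℤ (Sh (d ^ 2 * c.1) (d ^ 3 * c.2)).toAffine.Point *
      Nat.card {x : Sha (Sh (d ^ 2 * c.1) (d ^ 3 * c.2)) // x + x = 0} = 4 ^ m

/-- **the rank and the Tate-Shafarevich group of the twist** -/
theorem tw_st {c : ℤ × ℤ} {e1 e2 e3 : ℤ}
    (hr : ∀ x : ℤ, x ^ 3 + c.1 * x + c.2 = (x - e1) * (x - e2) * (x - e3)) (hY : 2 ≤ Y)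
    (h1 : Ty1 Y (e2 - e1) (e3 - e1))
    (hs : ∀ e, InS Y (e2 - e1) (e3 - e1) s e → e = (1, 1))
    (hq : GoodQ Y (e2 - e1) (e3 - e1) s q) (hinj : Function.Injective r)
    (hT : GS Y (e2 - e1) (e3 - e1) q (univ.image r)) :
    St c (pT (insert q (univ.image r))) (n - (Lap q r).rank) := by
  have hTp := hT.pr
  have hnd := hq.nd
  have hN : (e2 - e1) * (e3 - e1) * ((e2 - e1) - (e3 - e1)) ≠ 0 := fun h =>
    hnd (by rw [h]; exact dvd_zero _)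
  have n12 : e1 ≠ e2 := fun h => hN (by rw [h]; ring)
  have n13 : e1 ≠ e3 := fun h => hN (by rw [h]; ring)
  have n23 : e2 ≠ e3 := fun h => hN (by rw [h]; ring)
  have dA : ¬ (q : ℤ) ∣ e2 - e1 := fun h => hnd ((h.mul_right _).mul_right _)
  have dB : ¬ (q : ℤ) ∣ e3 - e1 := fun h => hnd ((h.mul_left _).mul_right _)
  have dAB : ¬ (q : ℤ) ∣ (e2 - e1) - (e3 - e1) := fun h => hnd (h.mul_left _)
  have dT : ¬ (q : ℤ) ∣ pT (univ.image r) := nd_pT hTp hq.pr hT.nq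
  obtain ⟨f1, f2⟩ := card_S0 hY h1 hs hq hinj hT
  obtain ⟨D, hD⟩ : ∃ D, D = pT (insert q (univ.image r)) := ⟨_, rfl⟩
  have hDe : D = q * pT (univ.image r) := by rw [hD]; exact pT_U hT.nq
  rw [← hD] at f1 f2 ⊢
  have hD0 : D ≠ 0 := by
    rw [hD]
    exact pT_ne (pr_U hq.pr hTp)
  rw [hDe] at f1
  obtain ⟨g1, g2⟩ := card_four hq.pr dA dB dAB dT f1
  rw [← hDe] at g1 g2
  rw [f2, ker_card] at g2
  have hr' := roots_tw hr D
  have hdisc : 4 * (D ^ 2 * c.1) ^ 3 + 27 * (D ^ 3 * c.2) ^ 2 ≠ 0 := by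
    obtain ⟨h3, hA, hB⟩ := coefs hr
    have e : 4 * (D ^ 2 * c.1) ^ 3 + 27 * (D ^ 3 * c.2) ^ 2 =
        -(D ^ 3 * ((e1 - e2) * (e1 - e3) * (e2 - e3))) ^ 2 := by
      rw [hA, hB, h3]
      ring
    rw [e]
    exact neg_ne_zero.2 (pow_ne_zero 2 (mul_ne_zero (pow_ne_zero 3 hD0)
      (mul_ne_zero (mul_ne_zero (sub_ne_zero.2 n12) (sub_ne_zero.2 n13)) (sub_ne_zero.2 n23))))
  obtain ⟨k1, k2⟩ := Pool.Agent.Y212.RZ.SELC2 (D ^ 2 * c.1) (D ^ 3 * c.2) (D * e1) (D * e2)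
    (D * e3) (D * (e2 - e1)) (D * (e3 - e1)) 1 hdisc hr' one_ne_zero
    (by rw [one_pow, mul_one, ← mul_sub]) (by rw [one_pow, mul_one, ← mul_sub])
    (by rw [sel_eq]; exact g1)
  have hinjD : ∀ {u v : ℤ}, u ≠ v → D * u ≠ D * v := fun h h' => h (mul_left_cancel₀ hD0 h')
  have hT2 := hasT_of hr' (hinjD n12) (hinjD n13) (hinjD n23)
  rw [sel_eq, g2] at k2
  have e4 : 4 * (2 ^ (n - (Lap q r).rank)) ^ 2 = 2 ^ (2 * (n - (Lap q r).rank) + 2) := by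
    rw [← pow_mul, pow_add, mul_comm (n - (Lap q r).rank) 2]
    ring
  rw [e4] at k2
  obtain ⟨⟨l1, l2⟩, ⟨m1, m2⟩, -⟩ := Pool.Agent.Y667.SX.sx_of (c := (D ^ 2 * c.1, D ^ 3 * c.2))
    hdisc hT2 k1 k2
  refine ⟨⟨l1, ?_⟩, m1, ?_⟩
  · rw [show (4 : ℕ) ^ (n - (Lap q r).rank + 1) = 2 ^ (2 * (n - (Lap q r).rank) + 2) by
      rw [pow_succ, pow_add, pow_mul]
      norm_num]
    exact l2
  rw [show (4 : ℕ) ^ (n - (Lap q r).rank) = 2 ^ (2 * (n - (Lap q r).rank)) by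
    rw [pow_mul]
    norm_num]
  exact m2

end

end Pool.Agent.K1H97.ST
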